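import Mathlib

set_option autoImplicit false
set_option linter.unusedVariables false
set_option linter.unusedSimpArgs false

/-!
# The abstract slot process

Gadgets and trees are both indexed by `Idx M = Fin M ⊕ Fin M`; a tree is a pair of slots, a gadget
is a set of slots. A slot `s` is added to a gadget `g` if after adding it the gadgets can be
matched bijectively to trees contained in them, with `s` used.
-/

namespace Pool.Agent.Lib.MP_88887c_co

/-- slots: `(false, n)` are the counter slots, `(true, n)` the lock slots -/
abbrev Slot (M : ℕ) := Bool × Fin (M + 1)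

/-- indices of gadgets and of trees -/
abbrev Idx (M : ℕ) := Fin M ⊕ Fin M

variable {M : ℕ}

/-- the end of the counter used by the `j`-th lock -/
def endIdx (M j : ℕ) : Fin (M + 1) := if j % 2 = 0 then 0 else Fin.last M

/-- first slot of a tree -/
def ta : Idx M → Slot M
  | .inl n => (false, n.castSucc)
  | .inr j => (false, endIdx M j)

/-- second slot of a tree -/
def tb : Idx M → Slot M
  | .inl n => (false, n.succ)
  | .inr j => (true, j.castSucc)

/-- the initial state -/
def initS : Idx M → Set (Slot M)
  | .inl _ => {s | s.1 = false ∨ s.2 = 0}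
  | .inr j => {(false, endIdx M j), (true, j.castSucc), (true, j.succ)}

/-- gadget `g` hosts tree `i` -/
def Host (E : Idx M → Set (Slot M)) (g i : Idx M) : Prop := ta i ∈ E g ∧ tb i ∈ E g

/-- the slot `s` can be added to gadget `g` -/
def Addable (E : Idx M → Set (Slot M)) (g : Idx M) (s : Slot M) : Prop :=
  ∃ β : Equiv.Perm (Idx M), (∀ g', g' ≠ g → Host E g' (β g')) ∧
    ((s = ta (β g) ∧ tb (β g) ∈ E g) ∨ (s = tb (β g) ∧ ta (β g) ∈ E g))

/-- one round -/
def nextS (E : Idx M → Set (Slot M)) : Idx M → Set (Slot M) :=
  fun g => {s | s ∈ E g ∨ Addable E g s}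

/-- the counter slots allowed in the running gadget `J` after `θ` steps -/
def DirOK (M J θ : ℕ) (n : ℕ) : Prop := if J % 2 = 0 then n ≤ θ else M ≤ n + θ

/-- upper bound on the state -/
structure Inv (J θ : ℕ) (E : Idx M → Set (Slot M)) : Prop where
  a : ∀ i : Fin M, J < (i : ℕ) → E (.inr i) ⊆ initS (.inr i)
  b1 : ∀ i : Fin M, (i : ℕ) = J → ∀ n, (false, n) ∈ E (.inr i) → DirOK M J θ n
  b2 : ∀ i : Fin M, (i : ℕ) = J → ∀ n, (true, n) ∈ E (.inr i) →
    (n : ℕ) = J + 1 ∨ ((n : ℕ) ≤ J ∧ (n : ℕ) % 2 = J % 2)
  c1 : ∀ i : Fin M, (i : ℕ) < J → ∀ n, (true, n) ∈ E (.inr i) → (n : ℕ) ≤ J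
  c2 : ∀ i : Fin M, ∀ n, (true, n) ∈ E (.inl i) → (n : ℕ) ≤ J

theorem endIdx_val (M j : ℕ) : ((endIdx M j : Fin (M + 1)) : ℕ) = if j % 2 = 0 then 0 else M := by
  unfold endIdx
  split_ifs <;> simp

theorem inv_init : Inv 0 0 (initS (M := M)) where
  a := fun i _ => le_refl _
  b1 := by
    intro i hi n hn
    simp only [initS, Set.mem_insert_iff, Set.mem_singleton_iff, Prod.mk.injEq] at hn
    rcases hn with ⟨-, rfl⟩ | ⟨h, -⟩ | ⟨h, -⟩
    · simp [DirOK, endIdx_val, hi]
    · simp at h
    · simp at h
  b2 := by
    intro i hi n hn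
    simp only [initS, Set.mem_insert_iff, Set.mem_singleton_iff, Prod.mk.injEq] at hn
    rcases hn with ⟨h, -⟩ | ⟨-, rfl⟩ | ⟨-, rfl⟩
    · simp at h
    · right; simp [hi]
    · left; simp [hi]
  c1 := fun i hi => absurd hi (by simp)
  c2 := by
    intro i n hn
    simp only [initS, Set.mem_ofPred_eq] at hn
    rcases hn with h | h
    · simp at h
    · simp [h]

/-- a frozen gadget hosts only its own tree -/
theorem host_frozen (hM : 0 < M) {E : Idx M → Set (Slot M)} {i : Fin M}
    (h : E (.inr i) ⊆ initS (.inr i)) {x : Idx M} (hx : Host E (.inr i) x) : x = .inr i := by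
  obtain ⟨h1, h2⟩ := hx
  have h1 := h h1
  have h2 := h h2
  rcases x with n | j
  · simp only [ta, tb, initS, Set.mem_insert_iff, Set.mem_singleton_iff, Prod.mk.injEq] at h1 h2
    simp only [reduceCtorEq, false_and, or_false, true_and, Bool.false_eq_true] at h1 h2
    have := h1.trans h2.symm
    have := congrArg Fin.val this
    simp at this
  · simp only [ta, tb, initS, Set.mem_insert_iff, Set.mem_singleton_iff, Prod.mk.injEq] at h1 h2
    simp only [reduceCtorEq, false_and, or_false, true_and, Bool.false_eq_true, false_or,
      Bool.true_eq_false] at h1 h2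
    rcases h2 with h2 | h2
    · have := congrArg Fin.val h2
      simp only [Fin.val_castSucc] at this
      congr 1
      exact Fin.ext this
    · exfalso
      have h2 := congrArg Fin.val h2
      have h1 := congrArg Fin.val h1
      simp only [Fin.val_castSucc, Fin.val_succ, endIdx_val] at h1 h2
      split_ifs at h1 <;> omega

/-- non-running, non-frozen gadgets have only low lock slots -/
theorem Inv.lock_le {J θ : ℕ} {E : Idx M → Set (Slot M)} (H : Inv J θ E) {g : Idx M}
    (hg : ∀ i : Fin M, J ≤ (i : ℕ) → g ≠ .inr i) {n : Fin (M + 1)} (hn : (true, n) ∈ E g) :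
    (n : ℕ) ≤ J := by
  rcases g with i | i
  · exact H.c2 i n hn
  · refine H.c1 i ?_ n hn
    by_contra hc
    exact hg i (by omega) rfl

theorem endIdx_dirOK {J θ j : ℕ} (h : j % 2 = J % 2) : DirOK M J θ (endIdx M j) := by
  unfold DirOK
  rw [endIdx_val]
  split_ifs <;> omega

theorem parity_of_endIdx {J θ j : ℕ} (hθ : θ < M) (h : DirOK M J θ (endIdx M j)) :
    j % 2 = J % 2 := by
  unfold DirOK at h
  rw [endIdx_val] at h
  split_ifs at h <;> omega

theorem inv_step {J θ : ℕ} (hθ : θ < M) {E : Idx M → Set (Slot M)}
    (H : Inv J θ E) : Inv J (θ + 1) (nextS E) := by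
  have hM : 0 < M := by omega
  -- frozen gadgets different from the modified one host their own tree
  have key : ∀ (g : Idx M) (β : Equiv.Perm (Idx M)), (∀ g', g' ≠ g → Host E g' (β g')) →
      ∀ i : Fin M, J < (i : ℕ) → g ≠ .inr i → β (.inr i) = .inr i := by
    intro g β hβ i hi hgi
    exact host_frozen hM (H.a i hi) (hβ _ (fun h => hgi h.symm))
  -- hence, the modified gadget gets a low tree unless it is frozen
  have low : ∀ (g : Idx M) (β : Equiv.Perm (Idx M)), (∀ g', g' ≠ g → Host E g' (β g')) →
      (∀ i : Fin M, J < (i : ℕ) → g ≠ .inr i) →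
      ∀ i : Fin M, β g = .inr i → (i : ℕ) ≤ J := by
    intro g β hβ hg i hi
    by_contra hc
    push Not at hc
    have h1 := key g β hβ i hc (hg i hc)
    exact hg i hc (β.injective (hi.trans h1.symm))
  -- lock slots
  have lock : ∀ (g : Idx M), (∀ i : Fin M, J < (i : ℕ) → g ≠ .inr i) → ∀ n,
      Addable E g (true, n) → (n : ℕ) ≤ J ∧ (false, endIdx M n) ∈ E g := by
    rintro g hg n ⟨β, hβ, h | h⟩
    · exfalso
      rcases hx : β g with x | x
      · rw [hx] at h; simp [ta] at h
      · rw [hx] at h; simp [ta] at h
    · rcases hx : β g with x | x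
      · rw [hx] at h; simp [tb] at h
      · have hl := low g β hβ hg x hx
        rw [hx] at h
        simp only [ta, tb, Prod.mk.injEq, true_and] at h
        obtain ⟨rfl, h2⟩ := h
        exact ⟨by simpa using hl, by simpa using h2⟩
  refine ⟨?_, ?_, ?_, ?_, ?_⟩
  · -- frozen gadgets stay frozen
    rintro i hi s (hs | ⟨β, hβ, hs⟩)
    · exact H.a i hi hs
    · -- who hosts tree `inr i`?
      obtain ⟨g', hg'⟩ := β.surjective (.inr i)
      by_cases hgg : g' = .inr i
      · subst hgg
        rw [hg'] at hs
        rcases hs with ⟨rfl, -⟩ | ⟨rfl, -⟩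
        · simp [ta, initS]
        · simp [tb, initS]
      · exfalso
        have hh := hβ g' hgg
        rw [hg'] at hh
        obtain ⟨h1, h2⟩ := hh
        simp only [ta, tb] at h1 h2
        have hne : ∀ i' : Fin M, J < (i' : ℕ) → g' ≠ .inr i' := by
          intro i' hi' he
          have : (Sum.inr i : Idx M) ≠ .inr i' := by
            intro h
            exact hgg (by rw [he, ← h])
          have h3 := key (.inr i) β hβ i' hi' this
          rw [← he, hg'] at h3
          exact hgg (by rw [he]; rw [he] at h3; exact h3.symm)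
        by_cases hJ : ∀ i' : Fin M, J ≤ (i' : ℕ) → g' ≠ .inr i'
        · have := H.lock_le hJ h2
          simp only [Fin.val_castSucc] at this
          omega
        · push Not at hJ
          obtain ⟨i', hi', rfl⟩ := hJ
          have hi'J : (i' : ℕ) = J := by
            by_contra hc
            exact hne i' (by omega) rfl
          have h3 := H.b2 i' hi'J _ h2
          simp only [Fin.val_castSucc] at h3
          have h4 : (i : ℕ) = J + 1 := by omega
          have h5 := H.b1 i' hi'J _ h1
          have h6 := parity_of_endIdx hθ h5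
          omega
  · -- counter slots of the running gadget
    rintro i hi n (hn | ⟨β, hβ, hs⟩)
    · have := H.b1 i hi n hn
      unfold DirOK at this ⊢
      split_ifs at this ⊢ <;> omega
    · have hg : ∀ i' : Fin M, J < (i' : ℕ) → (Sum.inr i : Idx M) ≠ .inr i' := by
        intro i' hi' he
        have : i = i' := by simpa using he
        subst this
        omega
      rcases hx : β (.inr i) with x | x
      · rw [hx] at hs
        simp only [ta, tb, Prod.mk.injEq, true_and] at hs
        rcases hs with ⟨rfl, h2⟩ | ⟨rfl, h2⟩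
        · have := H.b1 i hi _ h2
          unfold DirOK at this ⊢
          simp only [Fin.val_succ, Fin.val_castSucc] at this ⊢
          split_ifs at this ⊢ <;> omega
        · have := H.b1 i hi _ h2
          unfold DirOK at this ⊢
          simp only [Fin.val_succ, Fin.val_castSucc] at this ⊢
          split_ifs at this ⊢ <;> omega
      · have hl := low _ β hβ hg x hx
        rw [hx] at hs
        simp only [ta, tb, Prod.mk.injEq, true_and, Bool.false_eq_true, false_and, or_false] at hs
        obtain ⟨rfl, h2⟩ := hs
        have h3 := H.b2 i hi _ h2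
        simp only [Fin.val_castSucc] at h3
        exact endIdx_dirOK (by omega)
  · rintro i hi n (hn | hs)
    · exact H.b2 i hi n hn
    · have hg : ∀ i' : Fin M, J < (i' : ℕ) → (Sum.inr i : Idx M) ≠ .inr i' := by
        intro i' hi' he
        have : i = i' := by simpa using he
        subst this
        omega
      obtain ⟨h1, h2⟩ := lock _ hg n hs
      right
      refine ⟨h1, ?_⟩
      exact parity_of_endIdx hθ (H.b1 i hi _ h2)
  · rintro i hi n (hn | hs)
    · exact H.c1 i hi n hn
    · have hg : ∀ i' : Fin M, J < (i' : ℕ) → (Sum.inr i : Idx M) ≠ .inr i' := by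
        intro i' hi' he
        have : i = i' := by simpa using he
        subst this
        omega
      exact (lock _ hg n hs).1
  · rintro i n (hn | hs)
    · exact H.c2 i n hn
    · exact (lock _ (by simp) n hs).1

theorem inv_shift {J : ℕ} (hM : 0 < M) {E : Idx M → Set (Slot M)} (H : Inv J M E) :
    Inv (J + 1) 0 E where
  a := fun i hi => H.a i (by omega)
  b1 := by
    intro i hi n hn
    have := H.a i (by omega) hn
    simp only [initS, Set.mem_insert_iff, Set.mem_singleton_iff, Prod.mk.injEq] at this
    rcases this with ⟨-, rfl⟩ | ⟨h, -⟩ | ⟨h, -⟩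
    · exact endIdx_dirOK (by rw [hi])
    · simp at h
    · simp at h
  b2 := by
    intro i hi n hn
    have := H.a i (by omega) hn
    simp only [initS, Set.mem_insert_iff, Set.mem_singleton_iff, Prod.mk.injEq] at this
    rcases this with ⟨h, -⟩ | ⟨-, rfl⟩ | ⟨-, rfl⟩
    · simp at h
    · right; simp [hi]
    · left; simp [hi]
  c1 := by
    intro i hi n hn
    rcases Nat.lt_or_ge (i : ℕ) J with h | h
    · have := H.c1 i h n hn
      omega
    · have := H.b2 i (by omega) n hn
      omega
  c2 := by
    intro i n hn
    have := H.c2 i n hn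
    omega

/-- the orbit of the initial state -/
def stateS (M : ℕ) (s : ℕ) : Idx M → Set (Slot M) := nextS^[s] initS

theorem stateS_succ (s : ℕ) : stateS M (s + 1) = nextS (stateS M s) := by
  unfold stateS
  rw [Function.iterate_succ_apply']

theorem inv_state (hM : 0 < M) (J θ : ℕ) (hθ : θ ≤ M) : Inv J θ (stateS M (J * M + θ)) := by
  induction J generalizing θ with
  | zero =>
    induction θ with
    | zero => simpa [stateS] using inv_init
    | succ θ ih =>
      have := inv_step (by omega) (ih (by omega))
      rw [← stateS_succ] at this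
      exact this
  | succ J ihJ =>
    induction θ with
    | zero =>
      have := inv_shift hM (ihJ M le_rfl)
      have e : J * M + M = (J + 1) * M + 0 := by ring
      rw [e] at this
      exact this
    | succ θ ih =>
      have := inv_step (by omega) (ih (by omega))
      rw [← stateS_succ] at this
      exact this

theorem init_le_state (s : ℕ) (g : Idx M) : initS g ⊆ stateS M s g := by
  induction s with
  | zero => exact le_refl _
  | succ s ih =>
    rw [stateS_succ]
    exact fun x hx => Or.inl (ih hx)

/-- the matching used when gadget `J` hosts the counter tree `n` -/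
def shiftFun (J n : Fin M) : Idx M → Idx M
  | .inl n' => if n' = n then .inr ⟨0, by have := n.isLt; omega⟩ else .inl n'
  | .inr i => if h : (i : ℕ) < J then .inr ⟨i + 1, by have := J.isLt; omega⟩
      else if i = J then .inl n else .inr i

theorem shiftFun_injective (J n : Fin M) : Function.Injective (shiftFun J n) := by
  rintro (a | a) (b | b) h
  · simp only [shiftFun] at h
    split_ifs at h with h1 h2 h3
    · rw [h1, h2]
    · simpa using h
  · simp only [shiftFun] at h
    split_ifs at h with h1 h2 h3 h4 h5
    · simp only [Sum.inr.injEq, Fin.mk.injEq] at h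
      omega
    · simp only [Sum.inr.injEq] at h
      have := congrArg Fin.val h
      simp only at this
      have hb : (b : ℕ) ≠ J := fun h' => h3 (Fin.ext h')
      omega
    · simp only [Sum.inl.injEq] at h
      exact absurd h h1
  · simp only [shiftFun] at h
    split_ifs at h with h1 h2 h3 h4 h5
    · simp only [Sum.inr.injEq, Fin.mk.injEq] at h
      omega
    · simp only [Sum.inl.injEq] at h
      exact absurd h.symm h4
    · simp only [Sum.inr.injEq] at h
      have := congrArg Fin.val h
      simp only at this
      have hb : (a : ℕ) ≠ J := fun h' => h3 (Fin.ext h')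
      omega
  · simp only [shiftFun] at h
    congr 1
    apply Fin.ext
    split_ifs at h with h1 h2 h3 h4 h5 h6 h7
    · simp only [Sum.inr.injEq, Fin.mk.injEq] at h
      omega
    · simp only [Sum.inr.injEq] at h
      have := congrArg Fin.val h
      simp only at this
      omega
    · rw [h4, h6]
    · simp only [Sum.inr.injEq] at h
      have := congrArg Fin.val h
      simp only at this
      omega
    · simp only [Sum.inr.injEq] at h
      rw [h]

/-- in a stable state containing the initial one, all counter slots are present everywhere -/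
theorem stable_full {E : Idx M → Set (Slot M)} (h0 : ∀ g, initS g ⊆ E g)
    (hst : ∀ g s, Addable E g s → s ∈ E g) (J : Fin M) : ∀ n, (false, n) ∈ E (.inr J) := by
  obtain ⟨J, hJ⟩ := J
  induction J using Nat.strong_induction_on with
  | _ J ih =>
  -- the matching
  have key : ∀ n : Fin M, ((false, n.castSucc) ∈ E (.inr ⟨J, hJ⟩) ↔
      (false, n.succ) ∈ E (.inr ⟨J, hJ⟩)) := by
    intro n
    let β : Equiv.Perm (Idx M) := Equiv.ofBijective (shiftFun ⟨J, hJ⟩ n)
      (Finite.injective_iff_bijective.1 (shiftFun_injective _ _))
    have hβ : ∀ g, β g = shiftFun ⟨J, hJ⟩ n g := fun g => rfl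
    have hhost : ∀ g', g' ≠ .inr ⟨J, hJ⟩ → Host E g' (β g') := by
      rintro (i | i) hi
      · rw [hβ]
        simp only [shiftFun]
        split_ifs with h1
        · refine ⟨h0 _ ?_, h0 _ ?_⟩
          · simp [ta, initS]
          · simp [tb, initS]
        · refine ⟨h0 _ ?_, h0 _ ?_⟩
          · simp [ta, initS]
          · simp [tb, initS]
      · rw [hβ]
        simp only [shiftFun]
        split_ifs with h1 h2
        · refine ⟨ih i h1 (by omega) _, h0 _ ?_⟩
          simp only [tb, initS, Set.mem_insert_iff, Set.mem_singleton_iff, Prod.mk.injEq, true_and]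
          right; right
          apply Fin.ext
          simp
        · exact absurd (by rw [h2]) hi
        · refine ⟨h0 _ ?_, h0 _ ?_⟩
          · simp [ta, initS]
          · simp [tb, initS]
    have hβJ : β (.inr ⟨J, hJ⟩) = .inl n := by
      rw [hβ]
      simp [shiftFun]
    constructor
    · intro h
      refine hst _ _ ⟨β, hhost, ?_⟩
      rw [hβJ]
      right
      exact ⟨rfl, h⟩
    · intro h
      refine hst _ _ ⟨β, hhost, ?_⟩
      rw [hβJ]
      left
      exact ⟨rfl, h⟩
  have hstart : (false, endIdx M J) ∈ E (.inr ⟨J, hJ⟩) := h0 _ (by simp [initS])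
  -- all are equivalent
  have hall : ∀ n : ℕ, ∀ hn : n < M + 1, ((false, (⟨n, hn⟩ : Fin (M + 1))) ∈ E (.inr ⟨J, hJ⟩) ↔
      (false, (0 : Fin (M + 1))) ∈ E (.inr ⟨J, hJ⟩)) := by
    intro n
    induction n with
    | zero => intro hn; rfl
    | succ n ihn =>
      intro hn
      have h1 := ihn (by omega)
      have h2 := key ⟨n, by omega⟩
      rw [← h1]
      exact h2.symm
  intro n
  have h1 := (hall n n.isLt)
  have h2 := (hall (endIdx M J) (endIdx M J).isLt)
  exact h1.2 (h2.1 hstart)

/-- the process does not stop before time `M ^ 2` -/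
theorem state_ne (s : ℕ) (hs : s < M * M) : stateS M (s + 1) ≠ stateS M s := by
  have hM : 0 < M := by
    rcases Nat.eq_zero_or_pos M with h | h
    · subst h; simp at hs
    · exact h
  intro heq
  have hst : ∀ g x, Addable (stateS M s) g x → x ∈ stateS M s g := by
    intro g x hx
    have : x ∈ stateS M (s + 1) g := by
      rw [stateS_succ]
      exact Or.inr hx
    rwa [heq] at this
  have hJ : s / M < M := Nat.div_lt_of_lt_mul hs
  have hfull := stable_full (init_le_state s) hst ⟨s / M, hJ⟩
  have hθ : s % M < M := Nat.mod_lt _ hM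
  have hinv := inv_state hM (s / M) (s % M) hθ.le
  have e : s / M * M + s % M = s := Nat.div_add_mod' s M
  rw [e] at hinv
  have h1 := hinv.b1 ⟨s / M, hJ⟩ rfl 0 (hfull 0)
  have h2 := hinv.b1 ⟨s / M, hJ⟩ rfl (Fin.last M) (hfull _)
  unfold DirOK at h1 h2
  simp only [Fin.val_last, Fin.val_zero] at h1 h2
  split_ifs at h1 h2 <;> omega

end Pool.Agent.Lib.MP_88887c_co
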