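import Mathlib

set_option autoImplicit false
set_option linter.unusedVariables false
set_option linter.unusedSimpArgs false
set_option linter.unusedSectionVars false
set_option linter.unusedDecidableInType false

/-!
# Components, new copies, and trees given by a parent function
-/

namespace Pool.Agent.Lib.MP_88887c_co

/-! ### Trees given by a parent function -/

theorem connected_of_parent {V : Type*} (G : SimpleGraph V) (r : V) (par : V → V) (μ : V → ℕ)
    (h1 : ∀ v, v ≠ r → G.Adj v (par v)) (h2 : ∀ v, v ≠ r → μ (par v) < μ v) : G.Connected := by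
  have key : ∀ n, ∀ v, μ v = n → G.Reachable v r := by
    intro n
    induction n using Nat.strong_induction_on with
    | _ n ih =>
    intro v hv
    by_cases hvr : v = r
    · rw [hvr]
    · exact (h1 v hvr).reachable.trans (ih _ (by rw [← hv]; exact h2 v hvr) _ rfl)
  have : Nonempty V := ⟨r⟩
  refine SimpleGraph.Connected.mk ?_
  intro a b
  exact (key _ a rfl).trans (key _ b rfl).symm

theorem isTree_of_parent {V : Type*} [Finite V] (G : SimpleGraph V) (r : V) (par : V → V)
    (μ : V → ℕ)
    (h1 : ∀ v, v ≠ r → G.Adj v (par v)) (h2 : ∀ v, v ≠ r → μ (par v) < μ v)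
    (h3 : ∀ a b, G.Adj a b → (a ≠ r ∧ b = par a) ∨ (b ≠ r ∧ a = par b)) : G.IsTree := by
  classical
  have hc := connected_of_parent G r par μ h1 h2
  rw [SimpleGraph.isTree_iff_connected_and_card]
  refine ⟨hc, ?_⟩
  have hle : Nat.card G.edgeSet + 1 ≤ Nat.card V := by
    cases nonempty_fintype V
    have hsub : G.edgeSet ⊆ (fun a => s(a, par a)) '' {a : V | a ≠ r} := by
      intro e
      induction e with
      | _ a b =>
        intro he
        rcases h3 a b he with ⟨ha, rfl⟩ | ⟨hb, rfl⟩
        · exact ⟨a, ha, rfl⟩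
        · exact ⟨b, hb, Sym2.eq_swap⟩
    have hf : {a : V | a ≠ r}.Finite := Set.toFinite _
    have c1 := Set.ncard_le_ncard hsub (hf.image _)
    have c2 := Set.ncard_image_le (f := fun a => s(a, par a)) hf
    have c3 : {a : V | a ≠ r}.ncard + 1 = Nat.card V := by
      have : {a : V | a ≠ r} = ({r} : Set V)ᶜ := by ext; simp
      rw [this, Set.ncard_compl]
      have : 0 < Nat.card V := by
        rw [Nat.card_pos_iff]
        exact ⟨⟨r⟩, inferInstance⟩
      simp only [Set.ncard_singleton]
      omega
    rw [Nat.card_coe_set_eq]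
    omega
  have hge := hc.card_vert_le_card_edgeSet_add_one
  omega

/-! ### Components -/

section comp
variable {I V : Type*}

/-- disjoint sum of graphs -/
def csum (X : I → SimpleGraph V) : SimpleGraph (I × V) where
  Adj a b := a.1 = b.1 ∧ (X a.1).Adj a.2 b.2
  symm := ⟨fun a b h => ⟨h.1.symm, by rw [← h.1]; exact h.2.symm⟩⟩
  loopless := ⟨fun a h => (X a.1).loopless.irrefl _ h.2⟩

theorem csum_adj (X : I → SimpleGraph V) (a b : I × V) :
    (csum X).Adj a b ↔ a.1 = b.1 ∧ (X a.1).Adj a.2 b.2 := Iff.rfl

theorem const_of_connected {V K : Type*} {A : SimpleGraph V} (hA : A.Connected) (f : V → K)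
    (hf : ∀ a b, A.Adj a b → f a = f b) (a b : V) : f a = f b := by
  obtain ⟨w⟩ := hA.preconnected a b
  induction w with
  | nil => rfl
  | cons h _ ih => exact (hf _ _ h).trans ih

theorem comp_level [Fintype I] [DecidableEq I] [Fintype V] [Nonempty V]
    (A : I → SimpleGraph V) (hA : ∀ i, (A i).Connected)
    (ψ : I × V → I × V) (hψ : Function.Injective ψ) (e1 e2 : I × V)
    (hmap : ∀ i a b, (A i).Adj a b → (ψ (i, a)).1 = (ψ (i, b)).1 ∨
      s(ψ (i, a), ψ (i, b)) = s(e1, e2)) :
    ∃ β : Equiv.Perm I, ∀ i a, (ψ (i, a)).1 = β i := by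
  classical
  rcases isEmpty_or_nonempty I with hI | hI
  · exact ⟨Equiv.refl _, fun i => isEmptyElim i⟩
  -- a component such that the others do not use `e`
  obtain ⟨i0, hi0⟩ : ∃ i0, ∀ i, i ≠ i0 → ∀ a b, (A i).Adj a b → (ψ (i, a)).1 = (ψ (i, b)).1 := by
    by_cases hex : ∃ i0 a b, (A i0).Adj a b ∧ s(ψ (i0, a), ψ (i0, b)) = s(e1, e2)
    · obtain ⟨i0, a0, b0, hab0, he⟩ := hex
      refine ⟨i0, ?_⟩
      intro i hi a b hab
      rcases hmap i a b hab with h | h
      · exact h
      · exfalso
        rw [← he, Sym2.eq_iff] at h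
        rcases h with ⟨h, -⟩ | ⟨h, -⟩
        · have := hψ h
          exact hi (congrArg Prod.fst this)
        · have := hψ h
          exact hi (congrArg Prod.fst this)
    · push Not at hex
      obtain ⟨i0⟩ := hI
      refine ⟨i0, ?_⟩
      intro i hi a b hab
      rcases hmap i a b hab with h | h
      · exact h
      · exact absurd h (hex i a b hab)
  have hconst : ∀ i, i ≠ i0 → ∀ a b, (ψ (i, a)).1 = (ψ (i, b)).1 := fun i hi =>
    const_of_connected (hA i) _ (hi0 i hi)
  obtain ⟨a0⟩ := (inferInstance : Nonempty V)
  let g : I → I := fun i => (ψ (i, a0)).1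
  -- surjectivity onto the gadget
  have honto : ∀ i, i ≠ i0 → ∀ x : V, ∃ a, ψ (i, a) = (g i, x) := by
    intro i hi x
    have hinj : Function.Injective (fun a => (ψ (i, a)).2) := by
      intro a b hab
      have : ψ (i, a) = ψ (i, b) := Prod.ext (hconst i hi a b) hab
      have := hψ this
      exact congrArg Prod.snd this
    obtain ⟨a, ha⟩ := (Finite.injective_iff_surjective.1 hinj) x
    exact ⟨a, Prod.ext (hconst i hi a a0) ha⟩
  -- if two elements land in the gadget of a component `≠ i0` they come from it
  have hcome : ∀ i, i ≠ i0 → ∀ j b, (ψ (j, b)).1 = g i → j = i := by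
    intro i hi j b hjb
    obtain ⟨a, ha⟩ := honto i hi (ψ (j, b)).2
    have : ψ (j, b) = ψ (i, a) := by
      rw [ha]
      exact Prod.ext hjb rfl
    have := hψ this
    exact congrArg Prod.fst this
  have ginj : Function.Injective g := by
    intro i j hij
    by_cases hi : i = i0
    · by_cases hj : j = i0
      · rw [hi, hj]
      · exact hcome j hj i a0 hij
    · exact (hcome i hi j a0 hij.symm).symm
  let β : Equiv.Perm I := Equiv.ofBijective g (Finite.injective_iff_bijective.1 ginj)
  refine ⟨β, ?_⟩
  intro i a
  change (ψ (i, a)).1 = g i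
  by_cases hi : i = i0
  · obtain ⟨j, hj⟩ := (Finite.injective_iff_surjective.1 ginj) (ψ (i, a)).1
    by_cases hj0 : j = i0
    · rw [← hj, hj0, hi]
    · have := hcome j hj0 i a hj.symm
      exact absurd (this.symm.trans hi) hj0
  · exact hconst i hi a a0

end comp

/-! ### New copies -/

section newcopy
variable {α V : Type*}

/-- adding the edge `uv` to `G` creates a new copy of `H` -/
def NewCopy (H : SimpleGraph α) (G : SimpleGraph V) (u v : V) : Prop :=
  ∃ f : α → V, Function.Injective f ∧
    (∀ a b, H.Adj a b → G.Adj (f a) (f b) ∨ s(f a, f b) = s(u, v)) ∧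
    ∃ a b, H.Adj a b ∧ s(f a, f b) = s(u, v)

theorem NewCopy.symm {H : SimpleGraph α} {G : SimpleGraph V} {u v : V} (h : NewCopy H G u v) :
    NewCopy H G v u := by
  obtain ⟨f, hf, h1, h2⟩ := h
  refine ⟨f, hf, ?_, ?_⟩
  · intro a b hab
    rw [Sym2.eq_swap (a := v)]
    exact h1 a b hab
  · obtain ⟨a, b, hab, h⟩ := h2
    exact ⟨a, b, hab, by rw [h, Sym2.eq_swap]⟩

/-- one round of the process -/
def stepN (H : SimpleGraph α) (G : SimpleGraph V) : SimpleGraph V where
  Adj u v := G.Adj u v ∨ (u ≠ v ∧ NewCopy H G u v)
  symm := ⟨fun u v h => by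
    rcases h with h | ⟨h1, h2⟩
    · exact Or.inl h.symm
    · exact Or.inr ⟨h1.symm, h2.symm⟩⟩
  loopless := ⟨fun u h => by
    rcases h with h | ⟨h1, h2⟩
    · exact G.loopless.irrefl _ h
    · exact h1 rfl⟩

theorem stepN_adj (H : SimpleGraph α) (G : SimpleGraph V) (u v : V) :
    (stepN H G).Adj u v ↔ G.Adj u v ∨ (u ≠ v ∧ NewCopy H G u v) := Iff.rfl

end newcopy

/-! ### The host graph: a core joined to an independent set -/

section host
variable {B O W : Type*}

/-- join of `X` with the empty graph on `W` -/
def hostG (X : SimpleGraph B) (W : Type*) : SimpleGraph (B ⊕ W) where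
  Adj u v := match u, v with
    | .inl a, .inl b => X.Adj a b
    | .inl _, .inr _ => True
    | .inr _, .inl _ => True
    | .inr _, .inr _ => False
  symm := ⟨by
    rintro (a | a) (b | b) h
    · exact (show X.Adj a b from h).symm
    · trivial
    · trivial
    · exact h⟩
  loopless := ⟨by
    rintro (a | a) h
    · exact X.loopless.irrefl _ h
    · exact h⟩

@[simp] theorem hostG_ll (X : SimpleGraph B) (a b : B) :
    (hostG X W).Adj (.inl a) (.inl b) ↔ X.Adj a b := Iff.rfl
@[simp] theorem hostG_lr (X : SimpleGraph B) (a : B) (b : W) :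
    (hostG X W).Adj (.inl a) (.inr b) ↔ True := Iff.rfl
@[simp] theorem hostG_rl (X : SimpleGraph B) (a : W) (b : B) :
    (hostG X W).Adj (.inr a) (.inl b) ↔ True := Iff.rfl
@[simp] theorem hostG_rr (X : SimpleGraph B) (a b : W) :
    (hostG X W).Adj (.inr a) (.inr b) ↔ False := Iff.rfl

/-- In a new copy of `T` in the host graph, the core of `T` is mapped onto the core. -/
theorem core_of_newCopy [Fintype B] [DecidableEq B] (T : SimpleGraph (B ⊕ O)) (F X : SimpleGraph B)
    (hTF : ∀ a b, T.Adj (.inl a) (.inl b) → F.Adj a b) (hTF' : ∀ a b, F.Adj a b → T.Adj (.inl a) (.inl b))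
    (hTO : ∀ a b : O, ¬ T.Adj (.inr a) (.inr b))
    (lfO : B → Fin 3 → O) (hlf : ∀ b j b' j', lfO b j = lfO b' j' → b = b' ∧ j = j')
    (hTl : ∀ b j, T.Adj (.inl b) (.inr (lfO b j)))
    {u v : B ⊕ W} (hN : NewCopy T (hostG X W) u v) (huv : ¬ (hostG X W).Adj u v) :
    ∃ ψ : B → B, Function.Injective ψ ∧
      (∀ a b, F.Adj a b → X.Adj (ψ a) (ψ b) ∨
        s((.inl (ψ a) : B ⊕ W), .inl (ψ b)) = s(u, v)) ∧
      ∃ a b, F.Adj a b ∧ s((.inl (ψ a) : B ⊕ W), .inl (ψ b)) = s(u, v) := by
  classical
  obtain ⟨f, hf, hmap, a0, b0, hab0, he⟩ := hN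
  -- each core vertex is mapped into the core
  have hcore : ∀ b, ∃ b', f (.inl b) = .inl b' := by
    by_contra hc
    push Not at hc
    obtain ⟨c, hc⟩ := hc
    -- for each `b`, a vertex of the star at `b` mapped to the core; for `c` two of them
    have hstar : ∀ b w, f (.inl b) = .inr w → ∀ j j', j ≠ j' →
        (∃ b', f (.inr (lfO b j)) = .inl b') ∨ (∃ b', f (.inr (lfO b j')) = .inl b') := by
      intro b w hw j j' hjj
      by_contra hcc
      push Not at hcc
      obtain ⟨h1, h2⟩ := hcc
      have e1 : s(f (.inl b), f (.inr (lfO b j))) = s(u, v) := by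
        rcases hmap _ _ (hTl b j) with h | h
        · rw [hw] at h
          rcases hx : f (.inr (lfO b j)) with x | x
          · exact absurd hx (h1 x)
          · rw [hx] at h
            exact absurd h (by simp)
        · exact h
      have e2 : s(f (.inl b), f (.inr (lfO b j'))) = s(u, v) := by
        rcases hmap _ _ (hTl b j') with h | h
        · rw [hw] at h
          rcases hx : f (.inr (lfO b j')) with x | x
          · exact absurd hx (h2 x)
          · rw [hx] at h
            exact absurd h (by simp)
        · exact h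
      rw [← e2, Sym2.congr_right] at e1
      have := hf e1
      simp only [Sum.inr.injEq] at this
      exact hjj (hlf _ _ _ _ this).2
    -- choose
    have hch : ∀ b, ∃ x : B ⊕ O, (x = .inl b ∨ ∃ j, x = .inr (lfO b j)) ∧ ∃ b', f x = .inl b' := by
      intro b
      rcases hx : f (.inl b) with x | x
      · exact ⟨.inl b, Or.inl rfl, x, hx⟩
      · rcases hstar b x hx 0 1 (by decide) with h | h
        · exact ⟨_, Or.inr ⟨0, rfl⟩, h⟩
        · exact ⟨_, Or.inr ⟨1, rfl⟩, h⟩
    obtain ⟨wc, hwc⟩ : ∃ w, f (.inl c) = .inr w := by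
      rcases hx : f (.inl c) with x | x
      · exact absurd hx (hc x)
      · exact ⟨x, rfl⟩
    -- two leaves for c
    obtain ⟨j1, j2, hj12, ⟨c1, hc1⟩, ⟨c2, hc2⟩⟩ : ∃ j1 j2, j1 ≠ j2 ∧
        (∃ b', f (.inr (lfO c j1)) = .inl b') ∧ (∃ b', f (.inr (lfO c j2)) = .inl b') := by
      rcases hstar c wc hwc 0 1 (by decide) with h | h
      · rcases hstar c wc hwc 1 2 (by decide) with h' | h'
        · exact ⟨0, 1, by decide, h, h'⟩
        · exact ⟨0, 2, by decide, h, h'⟩
      · rcases hstar c wc hwc 0 2 (by decide) with h' | h'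
        · exact ⟨1, 0, by decide, h, h'⟩
        · exact ⟨1, 2, by decide, h, h'⟩
    choose x hx1 x' hx' using hch
    -- injection `Option B → B`
    let φ : Option B → B := fun o => match o with
      | none => c2
      | some b => if b = c then c1 else x' b
    let pre : Option B → B ⊕ O := fun o => match o with
      | none => .inr (lfO c j2)
      | some b => if b = c then .inr (lfO c j1) else x b
    have hpre : ∀ o, f (pre o) = .inl (φ o) := by
      rintro (_ | b)
      · exact hc2
      · simp only [pre, φ]
        split_ifs with h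
        · exact hc1
        · exact hx' b
    -- location of `pre (some b)`
    have hloc : ∀ b, pre (some b) = .inl b ∨ ∃ j, pre (some b) = .inr (lfO b j) := by
      intro b
      simp only [pre]
      split_ifs with h
      · subst h; exact Or.inr ⟨j1, rfl⟩
      · exact hx1 b
    have hpreinj : Function.Injective pre := by
      rintro (_ | b) (_ | b') h
      · rfl
      · exfalso
        by_cases hb : b' = c
        · simp only [pre, hb, if_true] at h
          have := (hlf _ _ _ _ (Sum.inr.inj h)).2
          exact hj12 this.symm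
        · rcases hloc b' with h' | ⟨j, h'⟩
          · rw [h'] at h
            simp [pre] at h
          · rw [h'] at h
            simp only [pre] at h
            have := (hlf _ _ _ _ (Sum.inr.inj h)).1
            exact hb this.symm
      · exfalso
        by_cases hb : b = c
        · simp only [pre, hb, if_true] at h
          have := (hlf _ _ _ _ (Sum.inr.inj h)).2
          exact hj12 this
        · rcases hloc b with h' | ⟨j, h'⟩
          · rw [h'] at h
            simp [pre] at h
          · rw [h'] at h
            simp only [pre] at h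
            have := (hlf _ _ _ _ (Sum.inr.inj h)).1
            exact hb this
      · congr 1
        rcases hloc b with h1 | ⟨j, h1⟩ <;> rcases hloc b' with h2 | ⟨j', h2⟩
        · rw [h1, h2] at h
          exact Sum.inl.inj h
        · rw [h1, h2] at h
          simp at h
        · rw [h1, h2] at h
          simp at h
        · rw [h1, h2] at h
          exact (hlf _ _ _ _ (Sum.inr.inj h)).1
    have hφinj : Function.Injective φ := by
      intro o o' h
      apply hpreinj
      apply hf
      rw [hpre, hpre, h]
    have := Fintype.card_le_of_injective φ hφinj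
    simp at this
  choose ψ hψ using hcore
  have hψinj : Function.Injective ψ := by
    intro a b hab
    have : f (.inl a) = f (.inl b) := by rw [hψ, hψ, hab]
    have := hf this
    simpa using this
  have hψsurj : Function.Surjective ψ := Finite.injective_iff_surjective.1 hψinj
  have hout : ∀ o, ∃ w, f (.inr o) = .inr w := by
    intro o
    rcases hx : f (.inr o) with x | x
    · exfalso
      obtain ⟨b, hb⟩ := hψsurj x
      have : f (.inr o) = f (.inl b) := by rw [hx, hψ, hb]
      have := hf this
      simp at this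
    · exact ⟨x, rfl⟩
  refine ⟨ψ, hψinj, ?_, ?_⟩
  · intro a b hab
    rcases hmap _ _ (hTF' a b hab) with h | h
    · left
      rw [hψ, hψ] at h
      exact h
    · right
      rw [hψ, hψ] at h
      exact h
  · -- the used edge is a core edge
    rcases a0 with a | a
    · rcases b0 with b | b
      · refine ⟨a, b, hTF a b hab0, ?_⟩
        rw [hψ, hψ] at he
        exact he
      · exfalso
        obtain ⟨w, hw⟩ := hout b
        rw [hψ, hw, Sym2.eq_iff] at he
        rcases he with ⟨rfl, rfl⟩ | ⟨rfl, rfl⟩
        · exact huv (by simp)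
        · exact huv (by simp)
    · rcases b0 with b | b
      · exfalso
        obtain ⟨w, hw⟩ := hout a
        rw [hψ, hw, Sym2.eq_iff] at he
        rcases he with ⟨rfl, rfl⟩ | ⟨rfl, rfl⟩
        · exact huv (by simp)
        · exact huv (by simp)
      · exact absurd hab0 (hTO a b)

end host

end Pool.Agent.Lib.MP_88887c_co
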