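import Mathlib

set_option autoImplicit false
set_option linter.unusedVariables false
set_option linter.unusedSimpArgs false
set_option linter.unusedSectionVars false
set_option linter.unusedDecidableInType false

/-!
# Rigid gadgets

A gadget consists of a path `y_0, …, y_{P-1}`, hubs `h : Q`, each with `d h` private leaves, and
for each hub some edges to the path. The tree of `π : Q → Fin P` is the gadget in which hub `h` is
joined to `y_{π h}` only.
-/

namespace Pool.Agent.Lib.MP_88887c_co

variable {P : ℕ} {Q : Type} {d : Q → ℕ}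

/-- vertices of a gadget -/
abbrev GV (P : ℕ) (Q : Type) (d : Q → ℕ) := Fin P ⊕ (Σ h : Q, Option (Fin (d h)))

/-- path vertex -/
abbrev yv (k : Fin P) : GV P Q d := Sum.inl k
/-- hub -/
abbrev hb (h : Q) : GV P Q d := Sum.inr ⟨h, none⟩
/-- private leaf -/
abbrev lf (h : Q) (i : Fin (d h)) : GV P Q d := Sum.inr ⟨h, some i⟩

theorem hb_inj {a b : Q} (h : (hb a : GV P Q d) = hb b) : a = b := by
  simp only [Sum.inr.injEq, Sigma.mk.injEq] at h
  exact h.1

theorem hb_ne_lf {a b : Q} {i : Fin (d b)} (h : (hb a : GV P Q d) = lf b i) : False := by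
  simp only [Sum.inr.injEq, Sigma.mk.injEq] at h
  obtain ⟨rfl, h⟩ := h
  simp at h

theorem lf_fst {a b : Q} {i : Fin (d a)} {j : Fin (d b)} (h : (lf a i : GV P Q d) = lf b j) :
    a = b := by
  simp only [Sum.inr.injEq, Sigma.mk.injEq] at h
  exact h.1

theorem lf_inj {a : Q} {i j : Fin (d a)} (h : (lf a i : GV P Q d) = lf a j) : i = j := by
  simpa using h

/-- generating relation of the gadget -/
def gRel (E : Q → Fin P → Prop) : GV P Q d → GV P Q d → Prop
  | .inl k, .inl k' => (k : ℕ) + 1 = k'
  | .inr ⟨h, none⟩, .inl k => E h k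
  | .inr ⟨h, none⟩, .inr ⟨h', some _⟩ => h = h'
  | _, _ => False

/-- the gadget with hub-to-path edges `E` -/
def gadget (d : Q → ℕ) (E : Q → Fin P → Prop) : SimpleGraph (GV P Q d) where
  Adj a b := gRel E a b ∨ gRel E b a
  symm := ⟨fun a b h => h.symm⟩
  loopless := ⟨by
    rintro (k | ⟨h, (_ | i)⟩) hh <;> simp [gRel] at hh⟩

/-- the tree of `π` -/
def gtree (d : Q → ℕ) (π : Q → Fin P) : SimpleGraph (GV P Q d) := gadget d (fun h k => k = π h)

section adj
variable (E : Q → Fin P → Prop)

@[simp] theorem adj_yy (k k' : Fin P) : (gadget d E).Adj (yv k) (yv k') ↔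
    (k : ℕ) + 1 = k' ∨ (k' : ℕ) + 1 = k := Iff.rfl
@[simp] theorem adj_hy (h : Q) (k : Fin P) : (gadget d E).Adj (hb h) (yv k) ↔ E h k := by
  simp [gadget, gRel]
@[simp] theorem adj_yh (h : Q) (k : Fin P) : (gadget d E).Adj (yv k) (hb h) ↔ E h k := by
  simp [gadget, gRel]
@[simp] theorem adj_yl (k : Fin P) (h : Q) (i : Fin (d h)) :
    (gadget d E).Adj (yv k) (lf h i) ↔ False := by
  simp [gadget, gRel]
@[simp] theorem adj_ly (k : Fin P) (h : Q) (i : Fin (d h)) :
    (gadget d E).Adj (lf h i) (yv k) ↔ False := by
  simp [gadget, gRel]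
@[simp] theorem adj_hh (h h' : Q) : (gadget d E).Adj (hb h) (hb h') ↔ False := by
  simp [gadget, gRel]
@[simp] theorem adj_hl (h h' : Q) (i : Fin (d h')) :
    (gadget d E).Adj (hb h) (lf h' i) ↔ h = h' := by
  simp [gadget, gRel]
@[simp] theorem adj_lh (h h' : Q) (i : Fin (d h')) :
    (gadget d E).Adj (lf h' i) (hb h) ↔ h = h' := by
  simp [gadget, gRel]
@[simp] theorem adj_ll (h h' : Q) (i : Fin (d h)) (i' : Fin (d h')) :
    (gadget d E).Adj (lf h i) (lf h' i') ↔ False := by
  simp [gadget, gRel]

end adj

/-- walking from the left end -/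
theorem walk_left {f : ℕ → ℕ} {K : ℕ} (h0 : f 0 = 0)
    (hinj : ∀ a ≤ K, ∀ b ≤ K, f a = f b → a = b)
    (hst : ∀ k < K, f (k + 1) = f k + 1 ∨ f k = f (k + 1) + 1) : ∀ k ≤ K, f k = k := by
  intro k
  induction k using Nat.strong_induction_on with
  | _ k ih =>
  intro hk
  rcases k with _ | k
  · exact h0
  · have h1 := ih k (by omega) (by omega)
    rcases hst k (by omega) with h | h
    · omega
    · rcases k with _ | k
      · omega
      · have h2 := ih k (by omega) (by omega)
        have := hinj (k + 1 + 1) hk k (by omega) (by omega)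
        omega

/-- walking from the right end -/
theorem walk_right {f : ℕ → ℕ} {n K : ℕ} (hn : f n = n) (hle : ∀ k ≤ n, f k ≤ n)
    (hinj : ∀ a, a ≤ n → ∀ b, b ≤ n → f a = f b → a = b)
    (hst : ∀ k, K ≤ k → k < n → f (k + 1) = f k + 1 ∨ f k = f (k + 1) + 1) :
    ∀ k, K ≤ k → k ≤ n → f k = k := by
  have key : ∀ j, ∀ k, k + j = n → K ≤ k → f k = k := by
    intro j
    induction j using Nat.strong_induction_on with
    | _ j ih =>
    intro k hk hK
    rcases j with _ | j
    · have : k = n := by omega
      rw [this]; exact hn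
    · have h1 := ih j (by omega) (k + 1) (by omega) (by omega)
      rcases hst k hK (by omega) with h | h
      · omega
      · rcases j with _ | j
        · have := hle k (by omega)
          omega
        · have h2 := ih j (by omega) (k + 2) (by omega) (by omega)
          have := hinj k (by omega) (k + 2) (by omega) (by omega)
          omega
  intro k hK hk
  exact key (n - k) k (by omega) hK

variable [Fintype Q] [DecidableEq Q]

/-- **Rigidity of gadgets.** -/
theorem rigid {p : ℕ} (d : Q → ℕ) (hd1 : ∀ h, Fintype.card Q + 5 ≤ d h)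
    (hd2 : ∀ h h', h ≠ h' → d h + 3 ≤ d h' ∨ d h' + 3 ≤ d h)
    (π : Q → Fin (p + 2)) (E : Q → Fin (p + 2) → Prop)
    {z0 z0' z1 z1' : Q} (hz : z0 ≠ z0') (hz' : z1 ≠ z1')
    (hπ0 : π z0 = 0) (hπ0' : π z0' = 0) (hπ1 : π z1 = Fin.last _) (hπ1' : π z1' = Fin.last _)
    (hE0 : ∀ k, E z0 k → k = 0) (hE1 : ∀ k, E z1 k → k = Fin.last _)
    (ψ : GV (p + 2) Q d → GV (p + 2) Q d) (hψ : Function.Injective ψ)
    (e1 e2 : GV (p + 2) Q d)
    (hmap : ∀ a b, (gtree d π).Adj a b → (gadget d E).Adj (ψ a) (ψ b) ∨ s(ψ a, ψ b) = s(e1, e2)) :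
    (∀ k, ψ (yv k) = yv k) ∧ (∀ h, ψ (hb h) = hb h) ∧ (∀ h i, ∃ j, ψ (lf h i) = lf h j) := by
  classical
  have hsurj : Function.Surjective ψ := Finite.injective_iff_surjective.1 hψ
  -- leaf neighbours
  have hleaf : ∀ h i, (gadget d E).Adj (ψ (hb h)) (ψ (lf h i)) ∨
      s(ψ (hb h), ψ (lf h i)) = s(e1, e2) := by
    intro h i
    exact hmap _ _ (by simp [gtree])
  have hleafinj : ∀ h, Function.Injective (fun i : Fin (d h) => ψ (lf h i)) := by
    intro h i j hij
    have := hψ hij
    simpa using this
  have hcard : ∀ h (S : Finset (GV (p + 2) Q d)), (∀ i, ψ (lf h i) ∈ S) → d h ≤ S.card := by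
    intro h S hS
    have h1 : (Finset.univ.image (fun i : Fin (d h) => ψ (lf h i))).card = d h := by
      rw [Finset.card_image_of_injective _ (hleafinj h)]
      simp
    rw [← h1]
    apply Finset.card_le_card
    intro x hx
    rw [Finset.mem_image] at hx
    obtain ⟨i, -, rfl⟩ := hx
    exact hS i
  have hmem2 : ∀ a b : GV (p + 2) Q d, s(a, b) = s(e1, e2) → b ∈ ({e1, e2} : Finset _) := by
    intro a b hab
    rw [Sym2.eq_iff] at hab
    rcases hab with ⟨-, h⟩ | ⟨-, h⟩ <;> simp [h]
  -- Step 1: hubs are mapped to hubs
  have step1 : ∀ h, ∃ h', ψ (hb h) = hb h' := by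
    intro h
    rcases hx : ψ (hb h) with k | ⟨h', (_ | i')⟩
    · exfalso
      let A1 : Finset (GV (p + 2) Q d) :=
        (Finset.univ.filter (fun k' : Fin (p + 2) => (k' : ℕ) + 1 = k)).image Sum.inl
      let A2 : Finset (GV (p + 2) Q d) :=
        (Finset.univ.filter (fun k' : Fin (p + 2) => (k : ℕ) + 1 = k')).image Sum.inl
      let A3 : Finset (GV (p + 2) Q d) := Finset.univ.image (fun h : Q => hb h)
      have c1 : A1.card ≤ 1 := by
        refine Finset.card_image_le.trans ?_
        rw [Finset.card_le_one]
        intro a ha b hb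
        simp only [Finset.mem_filter, Finset.mem_univ, true_and] at ha hb
        exact Fin.ext (by omega)
      have c2 : A2.card ≤ 1 := by
        refine Finset.card_image_le.trans ?_
        rw [Finset.card_le_one]
        intro a ha b hb
        simp only [Finset.mem_filter, Finset.mem_univ, true_and] at ha hb
        exact Fin.ext (by omega)
      have c3 : A3.card ≤ Fintype.card Q := Finset.card_image_le.trans (by simp)
      have c4 : ({e1, e2} : Finset (GV (p + 2) Q d)).card ≤ 2 := Finset.card_le_two
      have hsub := hcard h (A1 ∪ A2 ∪ A3 ∪ {e1, e2}) (by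
        intro i
        rcases hleaf h i with h1 | h1
        · rw [hx] at h1
          rcases hy : ψ (lf h i) with k' | ⟨h'', (_ | i'')⟩
          · rw [hy] at h1
            have h1 := (adj_yy E k k').1 h1
            rcases h1 with h1 | h1
            · refine Finset.mem_union_left _ (Finset.mem_union_left _ (Finset.mem_union_right _ ?_))
              exact Finset.mem_image.2 ⟨k', by simp [h1], rfl⟩
            · refine Finset.mem_union_left _ (Finset.mem_union_left _ (Finset.mem_union_left _ ?_))
              exact Finset.mem_image.2 ⟨k', by simp [h1], rfl⟩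
          · refine Finset.mem_union_left _ (Finset.mem_union_right _ ?_)
            exact Finset.mem_image.2 ⟨h'', by simp, rfl⟩
          · rw [hy] at h1
            exact ((adj_yl E k h'' i'').1 h1).elim
        · exact Finset.mem_union_right _ (hmem2 _ _ h1))
      have u1 := Finset.card_union_le (A1 ∪ A2 ∪ A3) {e1, e2}
      have u2 := Finset.card_union_le (A1 ∪ A2) A3
      have u3 := Finset.card_union_le A1 A2
      have := hd1 h
      omega
    · exact ⟨h', rfl⟩
    · exfalso
      have c4 : ({e1, e2} : Finset (GV (p + 2) Q d)).card ≤ 2 := Finset.card_le_two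
      have hsub := hcard h ({hb h'} ∪ {e1, e2}) (by
        intro i
        rcases hleaf h i with h1 | h1
        · rw [hx] at h1
          rcases hy : ψ (lf h i) with k' | ⟨h'', (_ | i'')⟩
          · rw [hy] at h1
            exact ((adj_ly E k' h' i').1 h1).elim
          · rw [hy] at h1
            have := (adj_lh E h'' h' i').1 h1
            subst this
            simp
          · rw [hy] at h1
            exact ((adj_ll E h' h'' i' i'').1 h1).elim
        · exact Finset.mem_union_right _ (hmem2 _ _ h1))
      have u1 := Finset.card_union_le ({hb h'} : Finset (GV (p + 2) Q d)) {e1, e2}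
      simp only [Finset.card_singleton] at u1
      have := hd1 h
      omega
  choose σ hσ using step1
  have σinj : Function.Injective σ := by
    intro a b hab
    have : ψ (hb a) = ψ (hb b) := by rw [hσ, hσ, hab]
    exact hb_inj (hψ this)
  -- Step 2: private leaves not on `e` come from the private leaves
  have step2 : ∀ h (i : Fin (d (σ h))), (lf (σ h) i : GV (p + 2) Q d) ∉ ({e1, e2} : Finset _) →
      ∃ j, ψ (lf h j) = lf (σ h) i := by
    intro h i hi
    obtain ⟨a, ha⟩ := hsurj (lf (σ h) i)
    -- every tree neighbour of `a` is `hb h`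
    have hnb : ∀ b, (gtree d π).Adj a b → b = hb h := by
      intro b hab
      rcases hmap a b hab with h1 | h1
      · rw [ha] at h1
        rcases hy : ψ b with k' | ⟨h'', (_ | i'')⟩
        · rw [hy] at h1
          exact ((adj_ly E k' _ i).1 h1).elim
        · rw [hy] at h1
          have := (adj_lh E h'' _ i).1 h1
          subst this
          apply hψ
          rw [hy, hσ]
        · rw [hy] at h1
          exact ((adj_ll E _ h'' i i'').1 h1).elim
      · exfalso
        apply hi
        rw [Sym2.eq_swap] at h1
        have := hmem2 _ _ h1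
        rwa [ha] at this
    rcases a with k | ⟨h', (_ | j)⟩
    · exfalso
      -- a path neighbour
      rcases Nat.eq_zero_or_pos (k : ℕ) with hk | hk
      · have := hnb (yv ⟨1, by omega⟩) (by simp [gtree, hk])
        simp at this
      · have := hnb (yv ⟨(k : ℕ) - 1, by omega⟩) (by
          simp only [gtree, adj_yy]
          right
          omega)
        simp at this
    · exfalso
      rw [hσ] at ha
      exact hb_ne_lf ha
    · have := hnb (hb h') (by simp [gtree])
      simp only [Sum.inr.injEq, Sigma.mk.injEq] at this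
      obtain ⟨rfl, -⟩ := this
      exact ⟨j, ha⟩
  -- Step 3: hubs are fixed
  have hdle : ∀ h, d (σ h) ≤ d h := by
    intro h
    have h1 : (Finset.univ.image (fun i : Fin (d (σ h)) => (lf (σ h) i : GV (p + 2) Q d))).card
        = d (σ h) := by
      rw [Finset.card_image_of_injective]
      · simp
      · intro i j hij
        simpa using hij
    have h2 : (Finset.univ.image (fun i : Fin (d (σ h)) => (lf (σ h) i : GV (p + 2) Q d))) ⊆
        (Finset.univ.image (fun j : Fin (d h) => ψ (lf h j))) ∪ {e1, e2} := by
      intro x hx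
      rw [Finset.mem_image] at hx
      obtain ⟨i, -, rfl⟩ := hx
      by_cases hi : (lf (σ h) i : GV (p + 2) Q d) ∈ ({e1, e2} : Finset _)
      · exact Finset.mem_union_right _ hi
      · obtain ⟨j, hj⟩ := step2 h i hi
        exact Finset.mem_union_left _ (Finset.mem_image.2 ⟨j, by simp, hj⟩)
    have h3 := Finset.card_le_card h2
    have h4 := Finset.card_union_le (Finset.univ.image (fun j : Fin (d h) => ψ (lf h j))) {e1, e2}
    have h5 : (Finset.univ.image (fun j : Fin (d h) => ψ (lf h j))).card ≤ d h :=
      Finset.card_image_le.trans (by simp)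
    have c4 : ({e1, e2} : Finset (GV (p + 2) Q d)).card ≤ 2 := Finset.card_le_two
    by_cases hh : σ h = h
    · rw [hh]
    · rcases hd2 (σ h) h hh with h6 | h6 <;> omega
  have hσid : ∀ h, σ h = h := by
    by_contra hc
    push Not at hc
    obtain ⟨h, hh⟩ := hc
    have hlt : d (σ h) < d h := by
      have := hdle h
      rcases hd2 (σ h) h hh with h6 | h6 <;> omega
    have hsum : ∑ h, d (σ h) < ∑ h, d h :=
      Finset.sum_lt_sum (fun i _ => hdle i) ⟨h, Finset.mem_univ _, hlt⟩
    have hbij : Function.Bijective σ := Finite.injective_iff_bijective.1 σinj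
    have : ∑ h, d (σ h) = ∑ h, d h := hbij.sum_comp d
    omega
  have hhub : ∀ h, ψ (hb h) = hb h := by
    intro h
    rw [hσ, hσid]
  -- two neighbours of each path vertex, different from a given hub
  have hN : ∀ (k : Fin (p + 2)) (h : Q), ∃ a b : GV (p + 2) Q d, a ≠ b ∧ a ≠ hb h ∧ b ≠ hb h ∧
      (gtree d π).Adj (yv k) a ∧ (gtree d π).Adj (yv k) b := by
    intro k h
    rcases Nat.eq_zero_or_pos (k : ℕ) with hk | hk
    · have hk0 : k = 0 := Fin.ext hk
      obtain ⟨h', hh', hπh'⟩ : ∃ h', h' ≠ h ∧ π h' = 0 := by
        by_cases hzh : z0 = h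
        · exact ⟨z0', by rw [← hzh]; exact hz.symm, hπ0'⟩
        · exact ⟨z0, hzh, hπ0⟩
      refine ⟨yv ⟨1, by omega⟩, hb h', by simp, by simp, ?_, by simp [gtree, hk], ?_⟩
      · exact fun h => hh' (hb_inj h)
      · simp [gtree, hk0, hπh']
    · by_cases hkl : (k : ℕ) = p + 1
      · have hk0 : k = Fin.last _ := Fin.ext hkl
        obtain ⟨h', hh', hπh'⟩ : ∃ h', h' ≠ h ∧ π h' = Fin.last _ := by
          by_cases hzh : z1 = h
          · exact ⟨z1', by rw [← hzh]; exact hz'.symm, hπ1'⟩
          · exact ⟨z1, hzh, hπ1⟩
        refine ⟨yv ⟨(k : ℕ) - 1, by omega⟩, hb h', by simp, by simp, ?_, ?_, ?_⟩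
        · exact fun h => hh' (hb_inj h)
        · simp only [gtree, adj_yy]
          right
          omega
        · simp [gtree, hk0, hπh']
      · refine ⟨yv ⟨(k : ℕ) - 1, by omega⟩, yv ⟨(k : ℕ) + 1, by omega⟩, ?_, by simp, by simp, ?_, ?_⟩
        · simp only [ne_eq, Sum.inl.injEq, Fin.mk.injEq]
          omega
        · simp only [gtree, adj_yy]
          right
          omega
        · simp [gtree, adj_yy]
  -- Step 4: path vertices are mapped to path vertices
  have step4 : ∀ k, ∃ k', ψ (yv k) = yv k' := by
    intro k
    rcases hx : ψ (yv k) with k' | ⟨h', (_ | i')⟩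
    · exact ⟨k', rfl⟩
    · exfalso
      have : ψ (yv k) = ψ (hb h') := by rw [hx, hhub]
      have := hψ this
      simp at this
    · exfalso
      obtain ⟨a, b, hab, ha, hb', hka, hkb⟩ := hN k h'
      have hva : ∀ a, a ≠ hb h' → (gtree d π).Adj (yv k) a →
          s(ψ (yv k), ψ a) = s(e1, e2) := by
        intro a ha hka
        rcases hmap _ _ hka with h1 | h1
        · exfalso
          rw [hx] at h1
          rcases hy : ψ a with k'' | ⟨h'', (_ | i'')⟩
          · rw [hy] at h1
            exact ((adj_ly E k'' _ i').1 h1).elim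
          · rw [hy] at h1
            have := (adj_lh E h'' _ i').1 h1
            subst this
            apply ha
            apply hψ
            rw [hy, hhub]
          · rw [hy] at h1
            exact ((adj_ll E _ h'' i' i'').1 h1).elim
        · exact h1
      have h1 := hva a ha hka
      have h2 := hva b hb' hkb
      rw [← h2, Sym2.congr_right] at h1
      exact hab (hψ h1)
  choose τ hτ using step4
  have τinj : Function.Injective τ := by
    intro a b hab
    have : ψ (yv a) = ψ (yv b) := by rw [hτ, hτ, hab]
    have := hψ this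
    simpa using this
  have τsurj : Function.Surjective τ := Finite.injective_iff_surjective.1 τinj
  -- Step 5: private leaves are mapped to private leaves of the same hub
  have step5a : ∀ h i, ∃ h' j, ψ (lf h i) = lf h' j := by
    intro h i
    rcases hx : ψ (lf h i) with k' | ⟨h', (_ | i')⟩
    · exfalso
      obtain ⟨k, hk⟩ := τsurj k'
      have : ψ (lf h i) = ψ (yv k) := by rw [hx, hτ, hk]
      have := hψ this
      simp at this
    · exfalso
      have : ψ (lf h i) = ψ (hb h') := by rw [hx, hhub]
      exact hb_ne_lf (hψ this).symm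
    · exact ⟨h', i', rfl⟩
  have step5 : ∀ h i, ∃ j, ψ (lf h i) = lf h j := by
    intro h i
    obtain ⟨h', j, hj⟩ := step5a h i
    by_cases hh : h = h'
    · subst hh
      exact ⟨j, hj⟩
    · exfalso
      have he : s((hb h : GV (p + 2) Q d), lf h' j) = s(e1, e2) := by
        have := hleaf h i
        rw [hhub, hj] at this
        rcases this with h1 | h1
        · exact absurd ((adj_hl E h h' j).1 h1) hh
        · exact h1
      -- leaves of h' are mapped to leaves of h'
      have hl : ∀ i', ∃ j', ψ (lf h' i') = lf h' j' := by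
        intro i'
        obtain ⟨h'', j', hj'⟩ := step5a h' i'
        have := hleaf h' i'
        rw [hhub, hj'] at this
        rcases this with h1 | h1
        · have := (adj_hl E h' h'' j').1 h1
          subst this
          exact ⟨j', hj'⟩
        · exfalso
          rw [← he, Sym2.eq_iff] at h1
          rcases h1 with ⟨h1, -⟩ | ⟨h1, -⟩
          · simp only [Sum.inr.injEq, Sigma.mk.injEq] at h1
            exact hh h1.1.symm
          · simp only [Sum.inr.injEq, Sigma.mk.injEq] at h1
            obtain ⟨-, h1⟩ := h1
            simp at h1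
      choose g hg using hl
      have ginj : Function.Injective g := by
        intro a b hab
        have : ψ (lf h' a) = ψ (lf h' b) := by rw [hg, hg, hab]
        have := hψ this
        simpa using this
      have gsurj : Function.Surjective g := Finite.injective_iff_surjective.1 ginj
      obtain ⟨i', hi'⟩ := gsurj j
      have : ψ (lf h i) = ψ (lf h' i') := by rw [hj, hg, hi']
      have := hψ this
      simp only [Sum.inr.injEq, Sigma.mk.injEq] at this
      exact hh this.1
  -- Step 6: the path is fixed
  refine ⟨?_, hhub, step5⟩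
  have hτid : ∀ k, τ k = k := by
    -- translate to natural numbers
    let f : ℕ → ℕ := fun k => if h : k < p + 2 then (τ ⟨k, h⟩ : ℕ) else 0
    have hf : ∀ k (h : k < p + 2), f k = τ ⟨k, h⟩ := fun k h => by simp [f, h]
    have hfle : ∀ k, k ≤ p + 1 → f k ≤ p + 1 := by
      intro k hk
      rw [hf k (by omega)]
      have := (τ ⟨k, by omega⟩).isLt
      omega
    have hfinj : ∀ a, a ≤ p + 1 → ∀ b, b ≤ p + 1 → f a = f b → a = b := by
      intro a ha b hb hab
      rw [hf a (by omega), hf b (by omega)] at hab
      have := τinj (Fin.ext hab)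
      simpa using this
    have hgood : ∀ k, k < p + 1 → (f (k + 1) = f k + 1 ∨ f k = f (k + 1) + 1) ∨
        ∃ (hk : k < p + 2) (hk' : k + 1 < p + 2),
          s((yv (τ ⟨k, hk⟩) : GV (p + 2) Q d), yv (τ ⟨k + 1, hk'⟩)) = s(e1, e2) := by
      intro k hk
      rcases hmap (yv ⟨k, by omega⟩) (yv ⟨k + 1, by omega⟩) (by simp [gtree]) with h1 | h1
      · left
        rw [hτ, hτ] at h1
        have h1 := (adj_yy E _ _).1 h1
        rw [hf k (by omega), hf (k + 1) (by omega)]
        rcases h1 with h1 | h1
        · left; exact h1.symm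
        · right; exact h1.symm
      · right
        rw [hτ, hτ] at h1
        exact ⟨by omega, by omega, h1⟩
    have hend0 : τ 0 = 0 ∨ s((hb z0 : GV (p + 2) Q d), yv (τ 0)) = s(e1, e2) := by
      rcases hmap (hb z0) (yv 0) (by simp [gtree, hπ0]) with h1 | h1
      · left
        rw [hhub, hτ] at h1
        exact hE0 _ ((adj_hy E _ _).1 h1)
      · right
        rw [hhub, hτ] at h1
        exact h1
    have hend1 : τ (Fin.last _) = Fin.last _ ∨
        s((hb z1 : GV (p + 2) Q d), yv (τ (Fin.last _))) = s(e1, e2) := by
      rcases hmap (hb z1) (yv (Fin.last _)) (by simp [gtree, hπ1]) with h1 | h1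
      · left
        rw [hhub, hτ] at h1
        exact hE1 _ ((adj_hy E _ _).1 h1)
      · right
        rw [hhub, hτ] at h1
        exact h1
    have hz01 : z0 ≠ z1 := by
      intro h
      rw [h, hπ1] at hπ0
      have := congrArg Fin.val hπ0
      simp at this
    have hf0 : τ 0 = 0 → f 0 = 0 := by
      intro h
      rw [hf 0 (by omega)]
      have := congrArg Fin.val h
      simpa using this
    have hfl : τ (Fin.last _) = Fin.last _ → f (p + 1) = p + 1 := by
      intro h
      rw [hf (p + 1) (by omega)]
      have := congrArg Fin.val h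
      simpa [Fin.last] using this
    have hfid : ∀ k, k ≤ p + 1 → f k = k := by
      by_cases hex : ∃ k0, k0 < p + 1 ∧ ∃ (hk : k0 < p + 2) (hk' : k0 + 1 < p + 2),
          s((yv (τ ⟨k0, hk⟩) : GV (p + 2) Q d), yv (τ ⟨k0 + 1, hk'⟩)) = s(e1, e2)
      · obtain ⟨k0, hk0, hk, hk', he⟩ := hex
        have h0 : τ 0 = 0 := by
          rcases hend0 with h | h
          · exact h
          · exfalso
            rw [← he, Sym2.eq_iff] at h
            rcases h with ⟨h, -⟩ | ⟨h, -⟩ <;> simp at h
        have h1 : τ (Fin.last _) = Fin.last _ := by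
          rcases hend1 with h | h
          · exact h
          · exfalso
            rw [← he, Sym2.eq_iff] at h
            rcases h with ⟨h, -⟩ | ⟨h, -⟩ <;> simp at h
        have hgood' : ∀ k, k < p + 1 → k ≠ k0 → f (k + 1) = f k + 1 ∨ f k = f (k + 1) + 1 := by
          intro k hk1 hkne
          rcases hgood k hk1 with h | ⟨h2, h3, h⟩
          · exact h
          · exfalso
            rw [← he, Sym2.eq_iff] at h
            rcases h with ⟨h, h'⟩ | ⟨h, h'⟩
            · have := τinj (Sum.inl.inj h)
              simp only [Fin.mk.injEq] at this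
              exact hkne this
            · have h4 := τinj (Sum.inl.inj h)
              have h5 := τinj (Sum.inl.inj h')
              simp only [Fin.mk.injEq] at h4 h5
              omega
        intro k hk2
        rcases Nat.lt_or_ge k0 k with hlt | hge
        · refine walk_right (n := p + 1) (K := k0 + 1) (hfl h1) hfle hfinj ?_ k (by omega) hk2
          intro j hj1 hj2
          exact hgood' j hj2 (by omega)
        · refine walk_left (K := k0) (hf0 h0) ?_ ?_ k hge
          · intro a ha b hb hab
            exact hfinj a (by omega) b (by omega) hab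
          · intro j hj
            exact hgood' j (by omega) (by omega)
      · have hgood' : ∀ k, k < p + 1 → f (k + 1) = f k + 1 ∨ f k = f (k + 1) + 1 := by
          intro k hk1
          rcases hgood k hk1 with h | h
          · exact h
          · exact absurd ⟨k, hk1, h⟩ hex
        rcases hend0 with h | h
        · intro k hk
          refine walk_left (K := p + 1) (hf0 h) ?_ ?_ k hk
          · intro a ha b hb hab
            exact hfinj a (by omega) b (by omega) hab
          · intro j hj
            exact hgood' j (by omega)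
        · rcases hend1 with h' | h'
          · intro k hk
            refine walk_right (n := p + 1) (K := 0) (hfl h') hfle hfinj ?_ k (by omega) hk
            intro j hj1 hj2
            exact hgood' j hj2
          · exfalso
            rw [← h', Sym2.eq_iff] at h
            rcases h with ⟨h, -⟩ | ⟨h, -⟩
            · simp only [Sum.inr.injEq, Sigma.mk.injEq] at h
              exact hz01 h.1
            · simp at h
    intro k
    have := hfid k (by omega)
    rw [hf k k.isLt] at this
    exact Fin.ext this
  intro k
  rw [hτ, hτid]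

end Pool.Agent.Lib.MP_88887c_co
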