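import Pool.Agent.Lib.MP_88887c_co.Abstract
import Pool.Agent.Lib.MP_88887c_co.Rigid
import Pool.Agent.Lib.MP_88887c_co.Comp

set_option autoImplicit false
set_option linter.unusedVariables false
set_option linter.unusedSimpArgs false
set_option linter.unusedSectionVars false
set_option linter.unusedDecidableInType false

/-!
# The tree and the host graph; one round of the process equals one round of the slot process
-/

namespace Pool.Agent.Lib.MP_88887c_co

/-- hubs: movable hubs and static hubs -/
abbrev QT (q : ℕ) := (Bool × Fin (q + 2)) ⊕ (Bool × Bool)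

/-- number of private leaves -/
noncomputable def dd (q : ℕ) : QT q → ℕ :=
  fun h => Fintype.card (QT q) + 5 + 3 * (Fintype.equivFin (QT q) h : ℕ)

theorem dd1 (q : ℕ) (h : QT q) : Fintype.card (QT q) + 5 ≤ dd q h := by
  unfold dd; omega

theorem dd2 (q : ℕ) (h h' : QT q) (hh : h ≠ h') :
    dd q h + 3 ≤ dd q h' ∨ dd q h' + 3 ≤ dd q h := by
  unfold dd
  have : (Fintype.equivFin (QT q) h : ℕ) ≠ Fintype.equivFin (QT q) h' := by
    intro h1
    exact hh ((Fintype.equivFin (QT q)).injective (Fin.ext h1))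
  omega

section params
variable {q p : ℕ}

/-- number of steps of the counter -/
abbrev MM (q p : ℕ) := (q + 2) * p

/-- hub of a slot -/
def hub (s : Slot (MM q p)) : QT q := .inl (s.1, ⟨(s.2 : ℕ) % (q + 2), Nat.mod_lt _ (by omega)⟩)

/-- position of a slot -/
def pos (s : Slot (MM q p)) : Fin (p + 2) := ⟨(s.2 : ℕ) / (q + 2) + 1, by
  have h1 : (s.2 : ℕ) ≤ (q + 2) * p := Nat.le_of_lt_succ s.2.isLt
  have h2 : (s.2 : ℕ) / (q + 2) ≤ p := by
    have := Nat.div_le_div_right (c := q + 2) h1
    rwa [Nat.mul_div_cancel_left _ (by omega)] at this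
  omega⟩

/-- base position of a hub -/
def base (h : QT q) : Fin (p + 2) := match h with
  | .inl _ => 0
  | .inr (false, _) => 0
  | .inr (true, _) => Fin.last _

theorem slot_ext {s s' : Slot (MM q p)} (h1 : hub s = hub s') (h2 : pos s = pos s') : s = s' := by
  obtain ⟨b, n⟩ := s
  obtain ⟨b', n'⟩ := s'
  simp only [hub, Sum.inl.injEq, Prod.mk.injEq, Fin.mk.injEq] at h1
  simp only [pos, Fin.mk.injEq] at h2
  obtain ⟨rfl, h1⟩ := h1
  congr 1
  apply Fin.ext
  have e1 := Nat.div_add_mod (n : ℕ) (q + 2)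
  have e2 := Nat.div_add_mod (n' : ℕ) (q + 2)
  have h3 : (n : ℕ) / (q + 2) = (n' : ℕ) / (q + 2) := by omega
  rw [h3, h1] at e1
  omega

theorem pos_ne_base (s : Slot (MM q p)) : pos s ≠ base (hub s) := by
  intro h
  have := congrArg Fin.val h
  simp [pos, hub, base] at this

theorem hub_ne (i : Idx (MM q p)) : hub (ta i) ≠ hub (tb i) := by
  rcases i with n | j
  · simp only [ta, tb, hub, ne_eq, Sum.inl.injEq, Prod.mk.injEq, true_and, Fin.mk.injEq,
      Fin.val_castSucc, Fin.val_succ]
    intro h
    have h1 : ((n : ℕ) + 1) % (q + 2) = (n : ℕ) % (q + 2) := h.symm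
    have h2 : (n : ℕ) + 1 ≡ (n : ℕ) + 0 [MOD (q + 2)] := h1
    have h3 : 1 ≡ 0 [MOD (q + 2)] := Nat.ModEq.add_left_cancel' _ h2
    have h4 : 1 % (q + 2) = 0 % (q + 2) := h3
    rw [Nat.mod_eq_of_lt (by omega)] at h4
    simp at h4
  · simp [ta, tb, hub]

/-- position function of a tree -/
def treeπ (i : Idx (MM q p)) : QT q → Fin (p + 2) := fun h =>
  if h = hub (ta i) then pos (ta i) else if h = hub (tb i) then pos (tb i) else base h

theorem treeπ_ta (i : Idx (MM q p)) : treeπ i (hub (ta i)) = pos (ta i) := by simp [treeπ]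
theorem treeπ_tb (i : Idx (MM q p)) : treeπ i (hub (tb i)) = pos (tb i) := by
  simp [treeπ, (hub_ne i).symm]
theorem treeπ_static (i : Idx (MM q p)) (z : Bool × Bool) :
    treeπ i (.inr z) = base (q := q) (.inr z) := by
  simp [treeπ, hub]

/-- hub-to-path edges of a gadget given by a set of slots -/
def gadE (E : Set (Slot (MM q p))) : QT q → Fin (p + 2) → Prop :=
  fun h k => k = base h ∨ ∃ s ∈ E, hub s = h ∧ pos s = k

theorem gadE_static (E : Set (Slot (MM q p))) (z : Bool × Bool) {k : Fin (p + 2)}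
    (h : gadE E (.inr z) k) : k = base (q := q) (.inr z) := by
  rcases h with h | ⟨s, -, h, -⟩
  · exact h
  · simp [hub] at h

theorem gadE_slot (E : Set (Slot (MM q p))) (s : Slot (MM q p)) :
    gadE E (hub s) (pos s) ↔ s ∈ E := by
  constructor
  · rintro (h | ⟨s', hs', h1, h2⟩)
    · exact absurd h (pos_ne_base s)
    · rwa [slot_ext h1 h2] at hs'
  · intro h
    exact Or.inr ⟨s, h, rfl, rfl⟩

theorem gadE_mono {E E' : Set (Slot (MM q p))} (h : E ⊆ E') {a : QT q} {k : Fin (p + 2)}
    (hk : gadE E a k) : gadE E' a k := by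
  rcases hk with hk | ⟨s, hs, h1⟩
  · exact Or.inl hk
  · exact Or.inr ⟨s, h hs, h1⟩

/-- if the position of hub `h` in tree `i` is not a base position then it is a slot of `i` -/
theorem treeπ_cases (i : Idx (MM q p)) (h : QT q) :
    treeπ i h = base h ∨ (h = hub (ta i) ∧ treeπ i h = pos (ta i)) ∨
      (h = hub (tb i) ∧ treeπ i h = pos (tb i)) := by
  unfold treeπ
  split_ifs with h1 h2
  · right; left; exact ⟨h1, rfl⟩
  · right; right; exact ⟨h2, rfl⟩
  · left; rfl

theorem gadE_tree (E : Set (Slot (MM q p))) (i : Idx (MM q p)) (ha : ta i ∈ E) (hb : tb i ∈ E)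
    (h : QT q) : gadE E h (treeπ i h) := by
  rcases treeπ_cases i h with h1 | ⟨rfl, h2⟩ | ⟨rfl, h2⟩
  · exact Or.inl h1
  · exact Or.inr ⟨_, ha, rfl, h2.symm⟩
  · exact Or.inr ⟨_, hb, rfl, h2.symm⟩

/-- gadget vertices -/
abbrev GVt (q p : ℕ) := GV (p + 2) (QT q) (dd q)
/-- core vertices -/
abbrev BT (q p : ℕ) := Idx (MM q p) × GVt q p
/-- outer vertices of the tree -/
abbrev OT (q p x : ℕ) := (BT q p × Fin 3) ⊕ Option (Fin x)

/-- adjacency between core and outer vertices in the tree -/
def tRel {x : ℕ} (b0 : BT q p) (a : BT q p) : OT q p x → Prop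
  | .inl (b, _) => a = b
  | .inr none => a.2 = .inl 0
  | .inr (some _) => a = b0

/-- the tree -/
noncomputable def TT {x : ℕ} (b0 : BT q p) : SimpleGraph (BT q p ⊕ OT q p x) where
  Adj u v := match u, v with
    | .inl a, .inl b => (csum (fun i => gtree (dd q) (treeπ i))).Adj a b
    | .inl a, .inr o => tRel b0 a o
    | .inr o, .inl a => tRel b0 a o
    | .inr _, .inr _ => False
  symm := ⟨by
    rintro (a | a) (b | b) h
    · exact (show (csum (fun i => gtree (dd q) (treeπ i))).Adj a b from h).symm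
    · exact h
    · exact h
    · exact h⟩
  loopless := ⟨by
    rintro (a | a) h
    · exact (csum (fun i => gtree (dd q) (treeπ i))).loopless.irrefl _ h
    · exact h⟩

/-- graph on the core given by a state -/
noncomputable def coreG (E : Idx (MM q p) → Set (Slot (MM q p))) : SimpleGraph (BT q p) :=
  csum (fun g => gadget (dd q) (gadE (E g)))

theorem gtree_connected (π : QT q → Fin (p + 2)) : (gtree (dd q) π).Connected := by
  refine connected_of_parent _ (yv 0)
    (fun v => match v with
      | .inl k => yv ⟨(k : ℕ) - 1, by omega⟩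
      | .inr ⟨h, none⟩ => yv (π h)
      | .inr ⟨h, some _⟩ => hb h)
    (fun v => match v with
      | .inl k => (k : ℕ)
      | .inr ⟨h, none⟩ => p + 2
      | .inr ⟨h, some _⟩ => p + 3) ?_ ?_
  · rintro (k | ⟨h, (_ | i)⟩) hv
    · simp only [gtree, adj_yy]
      have : (k : ℕ) ≠ 0 := by
        intro h
        apply hv
        congr 1
        exact Fin.ext h
      right
      omega
    · simp [gtree]
    · simp [gtree]
  · rintro (k | ⟨h, (_ | i)⟩) hv
    · have : (k : ℕ) ≠ 0 := by
        intro h
        apply hv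
        congr 1
        exact Fin.ext h
      simp only
      omega
    · simp only
      omega
    · simp

/-- parent function of the tree -/
noncomputable def parT {x : ℕ} (b0 : BT q p) : BT q p ⊕ OT q p x → BT q p ⊕ OT q p x
  | .inl (i, .inl k) => if k = 0 then .inr (.inr none) else .inl (i, yv ⟨(k : ℕ) - 1, by omega⟩)
  | .inl (i, .inr ⟨h, none⟩) => .inl (i, yv (treeπ i h))
  | .inl (i, .inr ⟨h, some _⟩) => .inl (i, hb h)
  | .inr (.inl (b, _)) => .inl b
  | .inr (.inr none) => .inr (.inr none)
  | .inr (.inr (some _)) => .inl b0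

/-- rank function of the tree -/
def rkT {x : ℕ} : BT q p ⊕ OT q p x → ℕ
  | .inl (_, .inl k) => (k : ℕ) + 1
  | .inl (_, .inr ⟨_, none⟩) => p + 3
  | .inl (_, .inr ⟨_, some _⟩) => p + 4
  | .inr (.inl (_, _)) => p + 5
  | .inr (.inr none) => 0
  | .inr (.inr (some _)) => p + 5

theorem rkT_core {x : ℕ} (b : BT q p) : rkT (x := x) (.inl b) < p + 5 := by
  obtain ⟨i, k | ⟨h, (_ | j)⟩⟩ := b
  · have := k.isLt
    simp only [rkT]
    omega
  · simp [rkT]
  · simp [rkT]

theorem TT_isTree {x : ℕ} (b0 : BT q p) : (TT (x := x) b0).IsTree := by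
  classical
  refine isTree_of_parent _ (.inr (.inr none)) (parT b0) rkT ?_ ?_ ?_
  · rintro (⟨i, k | ⟨h, (_ | j)⟩⟩ | ⟨b, j⟩ | (_ | c)) hv
    · by_cases hk : k = 0
      · subst hk
        simp [TT, tRel, parT]
      · have hk' : (k : ℕ) ≠ 0 := fun h => hk (Fin.ext h)
        simp only [hk, if_false, parT]
        refine ⟨rfl, ?_⟩
        simp only [gtree, adj_yy]
        right
        omega
    · exact ⟨rfl, by simp [gtree]⟩
    · exact ⟨rfl, by simp [gtree]⟩
    · simp [TT, tRel, parT]
    · exact absurd rfl hv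
    · simp [TT, tRel, parT]
  · rintro (⟨i, k | ⟨h, (_ | j)⟩⟩ | ⟨b, j⟩ | (_ | c)) hv
    · by_cases hk : k = 0
      · simp [hk, parT, rkT]
      · have hk' : (k : ℕ) ≠ 0 := fun h => hk (Fin.ext h)
        simp only [hk, if_false, parT, rkT]
        omega
    · simp only [parT, rkT]
      have := (treeπ i h).isLt
      omega
    · simp [parT, rkT]
    · exact rkT_core b
    · exact absurd rfl hv
    · exact rkT_core b0
  · -- edges are parent edges
    have hcore : ∀ (i : Idx (MM q p)) (a b : GVt q p), gRel (fun h k => k = treeπ i h) a b →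
        ((Sum.inl (i, a) : BT q p ⊕ OT q p x) ≠ .inr (.inr none) ∧
          (Sum.inl (i, b) : BT q p ⊕ OT q p x) = parT b0 (.inl (i, a))) ∨
        ((Sum.inl (i, b) : BT q p ⊕ OT q p x) ≠ .inr (.inr none) ∧
          (Sum.inl (i, a) : BT q p ⊕ OT q p x) = parT b0 (.inl (i, b))) := by
      rintro i (k | ⟨h, (_ | j)⟩) (k' | ⟨h', (_ | j')⟩) hab
      · right
        have hk : (k : ℕ) + 1 = k' := hab
        have hk0 : k' ≠ 0 := by
          intro h
          rw [h] at hk
          simp at hk
        refine ⟨by simp, ?_⟩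
        simp only [hk0, if_false, parT]
        congr 3
        apply Fin.ext
        simp only
        omega
      · exact absurd hab (by simp [gRel])
      · exact absurd hab (by simp [gRel])
      · have hab : k' = treeπ i h := hab
        subst hab
        exact Or.inl ⟨by simp, rfl⟩
      · exact absurd hab (by simp [gRel])
      · have hab : h = h' := hab
        subst hab
        exact Or.inr ⟨by simp, rfl⟩
      · exact absurd hab (by simp [gRel])
      · exact absurd hab (by simp [gRel])
      · exact absurd hab (by simp [gRel])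
    have hout : ∀ (a : BT q p) (o : OT q p x), tRel b0 a o →
        ((Sum.inl a : BT q p ⊕ OT q p x) ≠ .inr (.inr none) ∧
          (Sum.inr o : BT q p ⊕ OT q p x) = parT b0 (.inl a)) ∨
        ((Sum.inr o : BT q p ⊕ OT q p x) ≠ .inr (.inr none) ∧
          (Sum.inl a : BT q p ⊕ OT q p x) = parT b0 (.inr o)) := by
      rintro ⟨i, a⟩ (⟨b, j⟩ | (_ | c)) hab
      · right
        refine ⟨by simp, ?_⟩
        have : (i, a) = b := hab
        rw [this]
        rfl
      · left
        refine ⟨by simp, ?_⟩
        have : a = .inl 0 := hab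
        rw [this]
        simp [parT]
      · right
        refine ⟨by simp, ?_⟩
        have : (i, a) = b0 := hab
        rw [this]
        rfl
    rintro (⟨i, a⟩ | a) (⟨i', b⟩ | b) hab
    · obtain ⟨h1, h2⟩ := hab
      simp only at h1
      subst h1
      have h2 : gRel (fun h k => k = treeπ i h) a b ∨ gRel (fun h k => k = treeπ i h) b a := h2
      rcases h2 with h2 | h2
      · exact hcore i a b h2
      · exact (hcore i b a h2).symm
    · exact hout _ _ hab
    · exact (hout _ _ hab).symm
    · exact absurd hab (by simp [TT])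

/-- the edges of a gadget that are not in a smaller gadget are slot edges -/
theorem new_slot {E E' : Set (Slot (MM q p))} {a b : GVt q p}
    (h : (gadget (dd q) (gadE E')).Adj a b) (h' : ¬ (gadget (dd q) (gadE E)).Adj a b) :
    ∃ s ∈ E', s ∉ E ∧ ((a = hb (hub s) ∧ b = yv (pos s)) ∨ (a = yv (pos s) ∧ b = hb (hub s))) := by
  have main : ∀ a b : GVt q p, gRel (gadE E') a b → ¬ (gadget (dd q) (gadE E)).Adj a b →
      ∃ s ∈ E', s ∉ E ∧ (a = hb (hub s) ∧ b = yv (pos s)) := by
    rintro (k | ⟨h, (_ | j)⟩) (k' | ⟨h', (_ | j')⟩) hab hn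
    · exact absurd (Or.inl hab) hn
    · exact absurd hab (by simp [gRel])
    · exact absurd hab (by simp [gRel])
    · have hab : gadE E' h k' := hab
      have hn : ¬ gadE E h k' := fun hh => hn (Or.inl hh)
      rcases hab with hab | ⟨s, hs, rfl, rfl⟩
      · exact absurd (Or.inl hab) hn
      · exact ⟨s, hs, fun h => hn ((gadE_slot E s).2 h), rfl, rfl⟩
    · exact absurd hab (by simp [gRel])
    · exact absurd (Or.inl hab) hn
    · exact absurd hab (by simp [gRel])
    · exact absurd hab (by simp [gRel])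
    · exact absurd hab (by simp [gRel])
  rcases h with h | h
  · obtain ⟨s, h1, h2, h3⟩ := main a b h h'
    exact ⟨s, h1, h2, Or.inl h3⟩
  · obtain ⟨s, h1, h2, h3, h4⟩ := main b a h (fun hh => h' hh.symm)
    exact ⟨s, h1, h2, Or.inr ⟨h4, h3⟩⟩

theorem tree_rigid (i : Idx (MM q p)) (E : Set (Slot (MM q p)))
    (ψ : GVt q p → GVt q p) (hψ : Function.Injective ψ) (e1 e2 : GVt q p)
    (hmap : ∀ a b, (gtree (dd q) (treeπ i)).Adj a b →
      (gadget (dd q) (gadE E)).Adj (ψ a) (ψ b) ∨ s(ψ a, ψ b) = s(e1, e2)) :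
    (∀ k, ψ (yv k) = yv k) ∧ (∀ h, ψ (hb h) = hb h) ∧ (∀ h j, ∃ j', ψ (lf h j) = lf h j') := by
  refine rigid (dd q) (dd1 q) (dd2 q) (treeπ i) (gadE E)
    (z0 := .inr (false, false)) (z0' := .inr (false, true))
    (z1 := .inr (true, false)) (z1' := .inr (true, true)) (by simp) (by simp)
    ?_ ?_ ?_ ?_ ?_ ?_ ψ hψ e1 e2 hmap
  · rw [treeπ_static]; rfl
  · rw [treeπ_static]; rfl
  · rw [treeπ_static]; rfl
  · rw [treeπ_static]; rfl
  · intro k hk
    exact gadE_static E _ hk
  · intro k hk
    exact gadE_static E _ hk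

/-- from a new copy of the tree to an addable slot -/
theorem addable_of_newCopy {x : ℕ} {W : Type} (b0 : BT q p)
    (E : Idx (MM q p) → Set (Slot (MM q p))) {u v : BT q p ⊕ W}
    (huv : ¬ (hostG (coreG E) W).Adj u v) (hN : NewCopy (TT (x := x) b0) (hostG (coreG E) W) u v) :
    ∃ g s, Addable E g s ∧ s(u, v) = s(.inl (g, hb (hub s)), .inl (g, yv (pos s))) := by
  classical
  obtain ⟨ψ, hψ, hmap, a0, b0', hab0, he⟩ := core_of_newCopy (TT (x := x) b0)
    (csum (fun i => gtree (dd q) (treeπ i))) (coreG E) (fun a b h => h) (fun a b h => h)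
    (fun a b h => h) (fun b j => .inl (b, j))
    (fun b j b' j' h => by
      simp only [Sum.inl.injEq, Prod.mk.injEq] at h
      exact h)
    (fun b j => rfl) hN huv
  -- the endpoints of the new edge
  obtain ⟨i0, a0⟩ := a0
  obtain ⟨i0', b0'⟩ := b0'
  obtain ⟨hi0, hab0⟩ := hab0
  simp only at hi0 hab0
  subst hi0
  set e1 := ψ (i0, a0) with he1
  set e2 := ψ (i0, b0') with he2
  have huvE : ¬ (coreG E).Adj e1 e2 := by
    intro h
    apply huv
    rw [Sym2.eq_iff] at he
    rcases he with ⟨rfl, rfl⟩ | ⟨rfl, rfl⟩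
    · exact h
    · exact h.symm
  have hmap' : ∀ a b, (csum (fun i => gtree (dd q) (treeπ i))).Adj a b →
      (coreG E).Adj (ψ a) (ψ b) ∨ s(ψ a, ψ b) = s(e1, e2) := by
    intro a b hab
    rcases hmap a b hab with h | h
    · exact Or.inl h
    · right
      rw [← he, Sym2.eq_iff] at h
      rw [Sym2.eq_iff]
      rcases h with ⟨h1, h2⟩ | ⟨h1, h2⟩
      · exact Or.inl ⟨Sum.inl.inj h1, Sum.inl.inj h2⟩
      · exact Or.inr ⟨Sum.inl.inj h1, Sum.inl.inj h2⟩
  obtain ⟨β, hβ⟩ := comp_level (fun i => gtree (dd q) (treeπ i)) (fun i => gtree_connected _)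
    ψ hψ e1 e2 (by
      intro i a b hab
      rcases hmap' (i, a) (i, b) ⟨rfl, hab⟩ with h | h
      · exact Or.inl h.1
      · exact Or.inr h)
  -- apply rigidity in each gadget
  have hψi : ∀ i a, ψ (i, a) = (β i, (ψ (i, a)).2) := fun i a => Prod.ext (hβ i a) rfl
  have hinj : ∀ i, Function.Injective (fun a => (ψ (i, a)).2) := by
    intro i a b hab
    have : ψ (i, a) = ψ (i, b) := by
      rw [hψi i a, hψi i b]
      exact Prod.ext rfl hab
    have := hψ this
    exact congrArg Prod.snd this
  have hmapi : ∀ i a b, (gtree (dd q) (treeπ i)).Adj a b →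
      (gadget (dd q) (gadE (E (β i)))).Adj (ψ (i, a)).2 (ψ (i, b)).2 ∨
        (β i = β i0 ∧ s((ψ (i, a)).2, (ψ (i, b)).2) = s(e1.2, e2.2)) := by
    intro i a b hab
    rcases hmap' (i, a) (i, b) ⟨rfl, hab⟩ with h | h
    · left
      have := h.2
      rw [hβ] at this
      exact this
    · right
      rw [Sym2.eq_iff] at h
      rcases h with ⟨h1, h2⟩ | ⟨h1, h2⟩
      · refine ⟨?_, ?_⟩
        · rw [← hβ i a, ← hβ i0 a0, h1]
        · rw [h1, h2]
      · refine ⟨?_, ?_⟩
        · rw [← hβ i a, ← hβ i0 b0', h1]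
        · rw [h1, h2, Sym2.eq_swap]
  have hrig := fun i => tree_rigid i (E (β i)) (fun a => (ψ (i, a)).2) (hinj i) e1.2 e2.2 (by
    intro a b hab
    rcases hmapi i a b hab with h | h
    · exact Or.inl h
    · exact Or.inr h.2)
  -- the used edge is a slot edge
  have hnadj : ¬ (gadget (dd q) (gadE (E (β i0)))).Adj e1.2 e2.2 := by
    intro h
    apply huvE
    refine ⟨?_, ?_⟩
    · rw [he1, he2, hβ, hβ]
    · have : e1.1 = β i0 := hβ i0 a0
      rw [this]
      exact h
  obtain ⟨hy, hh, hl⟩ := hrig i0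
  have hslot : ∃ h, s(e1.2, e2.2) = s((hb h : GVt q p), yv (treeπ i0 h)) := by
    have main : ∀ a b : GVt q p, gRel (fun h k => k = treeπ i0 h) a b →
        ¬ (gadget (dd q) (gadE (E (β i0)))).Adj (ψ (i0, a)).2 (ψ (i0, b)).2 →
        ∃ h, s((ψ (i0, a)).2, (ψ (i0, b)).2) = s((hb h : GVt q p), yv (treeπ i0 h)) := by
      rintro (k | ⟨h, (_ | j)⟩) (k' | ⟨h', (_ | j')⟩) hab hn
      · exfalso
        apply hn
        rw [hy, hy]
        exact Or.inl hab
      · exact absurd hab (by simp [gRel])
      · exact absurd hab (by simp [gRel])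
      · have hab : k' = treeπ i0 h := hab
        subst hab
        refine ⟨h, ?_⟩
        rw [hh, hy]
      · exact absurd hab (by simp [gRel])
      · exfalso
        apply hn
        have hab : h = h' := hab
        subst hab
        obtain ⟨j'', hj''⟩ := hl h j'
        rw [hh, hj'']
        simp
      · exact absurd hab (by simp [gRel])
      · exact absurd hab (by simp [gRel])
      · exact absurd hab (by simp [gRel])
    rcases hab0 with h | h
    · exact main _ _ h hnadj
    · obtain ⟨h', h''⟩ := main _ _ h (fun hh => hnadj hh.symm)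
      exact ⟨h', by rw [← h'', Sym2.eq_swap]⟩
  obtain ⟨h0, hs0⟩ := hslot
  -- the slot is a non-base slot of the tree
  have hnE : ¬ gadE (E (β i0)) h0 (treeπ i0 h0) := by
    intro h
    apply hnadj
    rw [Sym2.eq_iff] at hs0
    rcases hs0 with ⟨h1, h2⟩ | ⟨h1, h2⟩
    · rw [h1, h2]
      simpa using h
    · rw [h1, h2]
      simpa using h
  -- slots of trees
  have hslots : ∀ i h, gadE (E (β i)) h (treeπ i h) ∨ (β i = β i0 ∧ h = h0) := by
    intro i h
    obtain ⟨hy', hh', -⟩ := hrig i
    rcases hmapi i (hb h) (yv (treeπ i h)) (by simp [gtree]) with h1 | ⟨h1, h2⟩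
    · left
      rw [hh', hy'] at h1
      simpa using h1
    · right
      refine ⟨h1, ?_⟩
      rw [hh', hy', hs0, Sym2.eq_iff] at h2
      rcases h2 with ⟨h2, -⟩ | ⟨h2, -⟩
      · exact hb_inj h2
      · simp at h2
  have hhost : ∀ g', g' ≠ β i0 → Host E g' (β.symm g') := by
    intro g' hg'
    have hne : β (β.symm g') ≠ β i0 := by simpa using hg'
    have h1 := hslots (β.symm g')
    refine ⟨?_, ?_⟩
    · rcases h1 (hub (ta (β.symm g'))) with h2 | ⟨h2, -⟩
      · rw [treeπ_ta, gadE_slot] at h2
        simpa using h2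
      · exact absurd h2 hne
    · rcases h1 (hub (tb (β.symm g'))) with h2 | ⟨h2, -⟩
      · rw [treeπ_tb, gadE_slot] at h2
        simpa using h2
      · exact absurd h2 hne
  have hcases := treeπ_cases i0 h0
  have he1' : e1 = (β i0, e1.2) := hψi i0 a0
  have he2' : e2 = (β i0, e2.2) := hψi i0 b0'
  have heq : ∀ (s : Slot (MM q p)), h0 = hub s → treeπ i0 h0 = pos s →
      s(u, v) = s((.inl (β i0, hb (hub s)) : BT q p ⊕ W), .inl (β i0, yv (pos s))) := by
    intro s hs hs'
    rw [← he, ← hs, ← hs']
    rw [Sym2.eq_iff] at hs0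
    rcases hs0 with ⟨h1, h2⟩ | ⟨h1, h2⟩
    · rw [he1', he2', h1, h2]
    · rw [he1', he2', h1, h2, Sym2.eq_swap]
  rcases hcases with h1 | ⟨h1, h2⟩ | ⟨h1, h2⟩
  · exact absurd (Or.inl h1) hnE
  · refine ⟨β i0, ta i0, ⟨β.symm, hhost, ?_⟩, heq _ h1 h2⟩
    left
    refine ⟨by simp, ?_⟩
    have h3 := hslots i0 (hub (tb i0))
    rcases h3 with h3 | ⟨-, h3⟩
    · rw [treeπ_tb, gadE_slot] at h3
      simpa using h3
    · rw [h1] at h3
      exact absurd h3.symm (hub_ne i0)
  · refine ⟨β i0, tb i0, ⟨β.symm, hhost, ?_⟩, heq _ h1 h2⟩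
    right
    refine ⟨by simp, ?_⟩
    have h3 := hslots i0 (hub (ta i0))
    rcases h3 with h3 | ⟨-, h3⟩
    · rw [treeπ_ta, gadE_slot] at h3
      simpa using h3
    · rw [h1] at h3
      exact absurd h3 (hub_ne i0)

/-- from an addable slot to a new copy of the tree -/
theorem newCopy_of_addable {x : ℕ} {W : Type} (ι : OT q p x ↪ W) (b0 : BT q p)
    (E : Idx (MM q p) → Set (Slot (MM q p))) {g : Idx (MM q p)} {s : Slot (MM q p)}
    (h : Addable E g s) :
    NewCopy (TT (x := x) b0) (hostG (coreG E) W) (.inl (g, hb (hub s))) (.inl (g, yv (pos s))) := by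
  classical
  obtain ⟨β, hβ, hs⟩ := h
  let f : BT q p ⊕ OT q p x → BT q p ⊕ W := Sum.map (fun a => (β.symm a.1, a.2)) ι
  have hf : Function.Injective f := by
    apply Function.Injective.sumMap
    · rintro ⟨i, a⟩ ⟨j, b⟩ hab
      simp only [Prod.mk.injEq, EmbeddingLike.apply_eq_iff_eq] at hab
      rw [hab.1, hab.2]
    · exact ι.injective
  have hsl : s = ta (β g) ∨ s = tb (β g) := by
    rcases hs with ⟨h, -⟩ | ⟨h, -⟩
    · exact Or.inl h
    · exact Or.inr h
  have hπs : treeπ (β g) (hub s) = pos s := by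
    rcases hsl with rfl | rfl
    · exact treeπ_ta _
    · exact treeπ_tb _
  refine ⟨f, hf, ?_, ?_⟩
  · rintro (⟨i, a⟩ | a) (⟨i', b⟩ | b) hab
    · obtain ⟨h1, hab⟩ := hab
      simp only at h1 hab
      subst h1
      have key : ∀ h, gadE (E (β.symm i)) h (treeπ i h) ∨ (β.symm i = g ∧ h = hub s) := by
        intro h
        by_cases hig : β.symm i = g
        · rcases treeπ_cases i h with h1 | ⟨h1, h2⟩ | ⟨h1, h2⟩
          · exact Or.inl (Or.inl h1)
          · rw [h2, h1, gadE_slot]
            have hi : i = β g := by rw [← hig]; simp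
            rcases hs with ⟨h3, h4⟩ | ⟨h3, h4⟩
            · right
              exact ⟨hig, by rw [h3, ← hi]⟩
            · left
              rw [hig, hi]
              exact h4
          · rw [h2, h1, gadE_slot]
            have hi : i = β g := by rw [← hig]; simp
            rcases hs with ⟨h3, h4⟩ | ⟨h3, h4⟩
            · left
              rw [hig, hi]
              exact h4
            · right
              exact ⟨hig, by rw [h3, ← hi]⟩
        · left
          have := hβ _ hig
          simp only [Equiv.apply_symm_apply] at this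
          exact gadE_tree _ _ this.1 this.2 h
      have main : ∀ a b : GVt q p, gRel (fun h k => k = treeπ i h) a b →
          (coreG E).Adj (β.symm i, a) (β.symm i, b) ∨
          s((.inl (β.symm i, a) : BT q p ⊕ W), .inl (β.symm i, b)) =
            s(.inl (g, hb (hub s)), .inl (g, yv (pos s))) := by
        rintro (k | ⟨h, (_ | j)⟩) (k' | ⟨h', (_ | j')⟩) hab
        · exact Or.inl ⟨rfl, Or.inl hab⟩
        · exact absurd hab (by simp [gRel])
        · exact absurd hab (by simp [gRel])
        · have hab : k' = treeπ i h := hab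
          subst hab
          rcases key h with h1 | ⟨h1, h2⟩
          · exact Or.inl ⟨rfl, Or.inl h1⟩
          · right
            have hi : i = β g := by rw [← h1]; simp
            rw [h1, h2, hi, hπs]
        · exact absurd hab (by simp [gRel])
        · exact Or.inl ⟨rfl, Or.inl hab⟩
        · exact absurd hab (by simp [gRel])
        · exact absurd hab (by simp [gRel])
        · exact absurd hab (by simp [gRel])
      rcases hab with h | h
      · rcases main a b h with h1 | h1
        · exact Or.inl h1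
        · exact Or.inr h1
      · rcases main b a h with h1 | h1
        · exact Or.inl h1.symm
        · right
          rw [← h1]
          exact Sym2.eq_swap
    · exact Or.inl trivial
    · exact Or.inl trivial
    · exact absurd hab (by simp [TT])
  · refine ⟨.inl (β g, hb (hub s)), .inl (β g, yv (pos s)), ⟨rfl, ?_⟩, ?_⟩
    · simp [gtree, hπs]
    · simp [f]

/-- one round of the process is one round of the slot process -/
theorem step_eq {x : ℕ} {W : Type} (ι : OT q p x ↪ W) (b0 : BT q p)
    (E : Idx (MM q p) → Set (Slot (MM q p))) :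
    stepN (TT (x := x) b0) (hostG (coreG E) W) = hostG (coreG (nextS E)) W := by
  classical
  have hmono : ∀ a b, (coreG E).Adj a b → (coreG (nextS E)).Adj a b := by
    rintro ⟨i, a⟩ ⟨j, b⟩ ⟨h1, h2⟩
    refine ⟨h1, ?_⟩
    simp only at h1 h2 ⊢
    have hsub : E i ⊆ nextS E i := fun s hs => Or.inl hs
    have main : ∀ a b : GVt q p, gRel (gadE (E i)) a b → gRel (gadE (nextS E i)) a b := by
      rintro (k | ⟨h, (_ | j)⟩) (k' | ⟨h', (_ | j')⟩) hab
      · exact hab
      · exact absurd hab (by simp [gRel])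
      · exact absurd hab (by simp [gRel])
      · exact gadE_mono hsub hab
      · exact absurd hab (by simp [gRel])
      · exact hab
      · exact absurd hab (by simp [gRel])
      · exact absurd hab (by simp [gRel])
      · exact absurd hab (by simp [gRel])
    rcases h2 with h2 | h2
    · exact Or.inl (main _ _ h2)
    · exact Or.inr (main _ _ h2)
  have hmono' : ∀ u v, (hostG (coreG E) W).Adj u v → (hostG (coreG (nextS E)) W).Adj u v := by
    rintro (u | u) (v | v) h
    · exact hmono _ _ h
    · trivial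
    · trivial
    · exact h
  have hslotadj : ∀ g s, Addable E g s →
      (coreG (nextS E)).Adj (g, hb (hub s)) (g, yv (pos s)) := by
    intro g s hs
    refine ⟨rfl, ?_⟩
    have : s ∈ nextS E g := Or.inr hs
    simpa using (gadE_slot (nextS E g) s).2 this
  ext u v
  constructor
  · intro h
    by_cases huv : (hostG (coreG E) W).Adj u v
    · exact hmono' _ _ huv
    · rcases h with h | ⟨hne, hN⟩
      · exact absurd h huv
      · obtain ⟨g, s, hs, he⟩ := addable_of_newCopy b0 E huv hN
        rw [Sym2.eq_iff] at he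
        rcases he with ⟨rfl, rfl⟩ | ⟨rfl, rfl⟩
        · exact hslotadj g s hs
        · exact (hslotadj g s hs).symm
  · intro h
    by_cases huv : (hostG (coreG E) W).Adj u v
    · exact Or.inl huv
    · right
      refine ⟨h.ne, ?_⟩
      rcases u with ⟨i, a⟩ | u
      · rcases v with ⟨j, b⟩ | v
        · obtain ⟨h1, h2⟩ := h
          simp only at h1 h2
          subst h1
          have huv' : ¬ (gadget (dd q) (gadE (E i))).Adj a b := fun hh => huv ⟨rfl, hh⟩
          obtain ⟨s, hs, hns, hab⟩ := new_slot h2 huv'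
          have hadd : Addable E i s := by
            rcases hs with hs | hs
            · exact absurd hs hns
            · exact hs
          have := newCopy_of_addable ι b0 E hadd
          rcases hab with ⟨rfl, rfl⟩ | ⟨rfl, rfl⟩
          · exact this
          · exact this.symm
        · exact absurd (by trivial) huv
      · rcases v with ⟨j, b⟩ | v
        · exact absurd (by trivial) huv
        · exact absurd h (by simp)

theorem coreG_injective {E E' : Idx (MM q p) → Set (Slot (MM q p))}
    (h : coreG E = coreG E') : E = E' := by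
  have main : ∀ E E' : Idx (MM q p) → Set (Slot (MM q p)), coreG E = coreG E' →
      ∀ g s, s ∈ E g → s ∈ E' g := by
    intro E E' h g s hs
    have h1 : (coreG E).Adj (g, hb (hub s)) (g, yv (pos s)) := by
      refine ⟨rfl, ?_⟩
      simpa using (gadE_slot (E g) s).2 hs
    rw [h] at h1
    have h2 := h1.2
    simp only [adj_hy] at h2
    exact (gadE_slot (E' g) s).1 h2
  funext g
  ext s
  exact ⟨main E E' h g s, main E' E h.symm g s⟩

theorem hostG_injective {B W : Type*} {X X' : SimpleGraph B} (h : hostG X W = hostG X' W) :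
    X = X' := by
  ext a b
  have : (hostG X W).Adj (.inl a) (.inl b) ↔ (hostG X' W).Adj (.inl a) (.inl b) := by rw [h]
  exact this

/-- the process on the host graph does not stop before time `M ^ 2`. -/
theorem core_main {x : ℕ} {W : Type} (ι : OT q p x ↪ W) (b0 : BT q p) :
    ∃ G : ℕ → SimpleGraph (BT q p ⊕ W), (∀ i, G (i + 1) = stepN (TT (x := x) b0) (G i)) ∧
      ∀ i < MM q p * MM q p, G (i + 1) ≠ G i := by
  refine ⟨fun i => hostG (coreG (stateS (MM q p) i)) W, ?_, ?_⟩
  · intro i
    simp only
    rw [step_eq ι b0, stateS_succ]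
  · intro i hi h
    exact state_ne i hi (coreG_injective (hostG_injective h))

end params

end Pool.Agent.Lib.MP_88887c_co
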