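import Pool.Agent.Lib.MP_88887c_co.Core

set_option autoImplicit false
set_option linter.unusedVariables false
set_option linter.unusedSimpArgs false
set_option linter.unusedSectionVars false
set_option linter.unusedDecidableInType false

/-!
# Counting copies, transport to `Fin n`, and the choice of the parameters
-/

namespace Pool.Agent.Lib.MP_88887c_co

open SimpleGraph

/-! ### The number of copies increases iff there is a copy using the new edge -/

theorem copyCount_lt_iff {α V : Type*} [Fintype V] (H : SimpleGraph α) (G : SimpleGraph V)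
    {u v : V} (huv : u ≠ v) (hn : ¬ G.Adj u v) :
    G.copyCount H < (G ⊔ fromEdgeSet {s(u, v)}).copyCount H ↔ NewCopy H G u v := by
  classical
  set G' := G ⊔ fromEdgeSet {s(u, v)} with hG'
  have hle : G ≤ G' := le_sup_left
  have hadj : ∀ a b, G'.Adj a b ↔ G.Adj a b ∨ s(a, b) = s(u, v) := by
    intro a b
    rw [hG', sup_adj, fromEdgeSet_adj]
    constructor
    · rintro (h | ⟨h, -⟩)
      · exact Or.inl h
      · exact Or.inr h
    · rintro (h | h)
      · exact Or.inl h
      · refine Or.inr ⟨h, ?_⟩
        rintro rfl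
        rw [Sym2.eq_iff] at h
        rcases h with ⟨h1, h2⟩ | ⟨h1, h2⟩
        · exact huv (h1.symm.trans h2)
        · exact huv (h2.symm.trans h1)
  let φ : G.Subgraph → G'.Subgraph := fun S => S.map (Copy.ofLE G G' hle).toHom
  have hφadj : ∀ (S : G.Subgraph) a b, (φ S).Adj a b ↔ S.Adj a b := by
    intro S a b
    simp only [φ, Subgraph.map_adj, Relation.map_apply]
    constructor
    · rintro ⟨a', b', h, h1, h2⟩
      have h1 : a' = a := h1
      have h2 : b' = b := h2
      rwa [h1, h2] at h
    · intro h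
      exact ⟨a, b, h, rfl, rfl⟩
  have hφverts : ∀ (S : G.Subgraph), (φ S).verts = S.verts := by
    intro S
    ext a
    simp only [φ, Subgraph.map_verts, Set.mem_image]
    constructor
    · rintro ⟨a', h, h1⟩
      have h1 : a' = a := h1
      rwa [h1] at h
    · intro h
      exact ⟨a, h, rfl⟩
  have hφinj : Function.Injective φ := by
    intro S S' h
    apply Subgraph.ext
    · rw [← hφverts S, ← hφverts S', h]
    · ext a b
      rw [← hφadj S, ← hφadj S', h]
  have hφiso : ∀ S : G.Subgraph, Nonempty (H ≃g S.coe) ↔ Nonempty (H ≃g (φ S).coe) := by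
    intro S
    constructor
    · rintro ⟨e⟩
      exact ⟨e.trans ((Copy.ofLE G G' hle).isoSubgraphMap S)⟩
    · rintro ⟨e⟩
      exact ⟨e.trans ((Copy.ofLE G G' hle).isoSubgraphMap S).symm⟩
  let A : Finset G.Subgraph := {S | Nonempty (H ≃g S.coe)}
  let A' : Finset G'.Subgraph := {S | Nonempty (H ≃g S.coe)}
  have hA : G.copyCount H = A.card := by
    rw [copyCount]
  have hA' : G'.copyCount H = A'.card := by
    rw [copyCount]
    refine congrArg Finset.card (Finset.ext fun S => ?_)
    simp only [A', Finset.mem_filter, Finset.mem_univ, true_and]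
  have hcard : (A.image φ).card = A.card := Finset.card_image_of_injective _ hφinj
  have hsub : A.image φ ⊆ A' := by
    intro S hS
    rw [Finset.mem_image] at hS
    obtain ⟨S0, hS0, rfl⟩ := hS
    simp only [A, A', Finset.mem_filter, Finset.mem_univ, true_and] at hS0 ⊢
    exact (hφiso S0).1 hS0
  rw [hA, hA', ← hcard]
  constructor
  · intro hlt
    -- some copy is not in the image
    obtain ⟨S', hS', hnot⟩ : ∃ S' ∈ A', S' ∉ A.image φ := by
      by_contra hc
      push Not at hc
      have := Finset.card_le_card (fun x hx => hc x hx : A' ⊆ A.image φ)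
      omega
    simp only [A', Finset.mem_filter, Finset.mem_univ, true_and] at hS'
    obtain ⟨e⟩ := hS'
    have huse : S'.Adj u v := by
      by_contra hnu
      apply hnot
      -- restrict to `G`
      have hφS : φ (S'.comap (Copy.ofLE G G' hle).toHom) = S' := by
        apply Subgraph.ext
        · rw [hφverts]
          ext a
          simp only [Subgraph.comap_verts, Set.mem_preimage]
          exact Iff.rfl
        · ext a b
          rw [hφadj, Subgraph.comap_adj]
          constructor
          · rintro ⟨-, h⟩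
            exact h
          · intro h
            refine ⟨?_, h⟩
            rcases (hadj a b).1 h.adj_sub with h1 | h1
            · exact h1
            · exfalso
              rw [Sym2.eq_iff] at h1
              rcases h1 with ⟨rfl, rfl⟩ | ⟨rfl, rfl⟩
              · exact hnu h
              · exact hnu h.symm
      rw [Finset.mem_image]
      refine ⟨S'.comap (Copy.ofLE G G' hle).toHom, ?_, hφS⟩
      simp only [A, Finset.mem_filter, Finset.mem_univ, true_and]
      rw [hφiso, hφS]
      exact ⟨e⟩
    have hu := S'.edge_vert huse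
    have hv := S'.edge_vert huse.symm
    refine ⟨fun a => (e a : V), ?_, ?_, ?_⟩
    · intro a b hab
      exact e.injective (Subtype.ext hab)
    · intro a b hab
      have h1 : S'.coe.Adj (e a) (e b) := e.map_rel_iff.2 hab
      have h2 : S'.Adj (e a) (e b) := h1
      exact (hadj _ _).1 h2.adj_sub
    · refine ⟨e.symm ⟨u, hu⟩, e.symm ⟨v, hv⟩, ?_, ?_⟩
      · have h1 : S'.coe.Adj ⟨u, hu⟩ ⟨v, hv⟩ := huse
        exact e.symm.map_rel_iff.2 h1
      · simp
  · rintro ⟨f, hf, hmap, a, b, hab, he⟩
    let c : Copy H G' := ⟨⟨f, fun {a b} hab => (hadj _ _).2 (hmap a b hab)⟩, hf⟩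
    have hcadj : (c.toSubgraph).Adj (f a) (f b) := by
      simp only [Copy.toSubgraph, Subgraph.map_adj, Relation.map_apply]
      exact ⟨a, b, hab, rfl, rfl⟩
    have hcuv : (c.toSubgraph).Adj u v := by
      rw [Sym2.eq_iff] at he
      rcases he with ⟨h1, h2⟩ | ⟨h1, h2⟩
      · rwa [h1, h2] at hcadj
      · rw [h1, h2] at hcadj
        exact hcadj.symm
    apply Finset.card_lt_card
    rw [Finset.ssubset_iff_of_subset hsub]
    refine ⟨c.toSubgraph, ?_, ?_⟩
    · simp only [A', Finset.mem_filter, Finset.mem_univ, true_and]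
      exact ⟨c.isoToSubgraph⟩
    · intro hmem
      rw [Finset.mem_image] at hmem
      obtain ⟨S, -, hS⟩ := hmem
      rw [← hS, hφadj] at hcuv
      exact hn hcuv.adj_sub

theorem next_eq_stepN {α V : Type*} [Fintype V] (H : SimpleGraph α) (G : SimpleGraph V) :
    G ⊔ fromEdgeSet {e : Sym2 V | G.copyCount H < (G ⊔ fromEdgeSet {e}).copyCount H} =
      stepN H G := by
  ext u v
  rw [sup_adj, fromEdgeSet_adj, stepN_adj]
  by_cases huv : u = v
  · subst huv
    simp
  · by_cases hn : G.Adj u v
    · simp [hn]
    · simp only [hn, false_or, ne_eq, huv, not_false_eq_true, and_true, true_and]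
      exact copyCount_lt_iff H G huv hn

/-! ### Transport -/

theorem newCopy_comap {α α' V V' : Type*} (H : SimpleGraph α) (G : SimpleGraph V)
    (e : α ≃ α') (ε : V ≃ V') (u v : V') :
    NewCopy (H.comap e.symm) (G.comap ε.symm) u v ↔ NewCopy H G (ε.symm u) (ε.symm v) := by
  constructor
  · rintro ⟨f, hf, hmap, a, b, hab, he⟩
    refine ⟨fun x => ε.symm (f (e x)), ?_, ?_, e.symm a, e.symm b, hab, ?_⟩
    · intro x y hxy
      exact e.injective (hf (ε.symm.injective hxy))
    · intro x y hxy
      rcases hmap (e x) (e y) (by simpa using hxy) with h | h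
      · exact Or.inl h
      · right
        rw [Sym2.eq_iff] at h ⊢
        simp only
        rcases h with ⟨h1, h2⟩ | ⟨h1, h2⟩
        · left; rw [h1, h2]; exact ⟨rfl, rfl⟩
        · right; rw [h1, h2]; exact ⟨rfl, rfl⟩
    · simp only [Equiv.apply_symm_apply]
      rw [Sym2.eq_iff] at he ⊢
      rcases he with ⟨h1, h2⟩ | ⟨h1, h2⟩
      · left; rw [h1, h2]; exact ⟨rfl, rfl⟩
      · right; rw [h1, h2]; exact ⟨rfl, rfl⟩
  · rintro ⟨f, hf, hmap, a, b, hab, he⟩
    refine ⟨fun x => ε (f (e.symm x)), ?_, ?_, e a, e b, by simpa using hab, ?_⟩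
    · intro x y hxy
      exact e.symm.injective (hf (ε.injective hxy))
    · intro x y hxy
      rcases hmap (e.symm x) (e.symm y) hxy with h | h
      · left
        simpa using h
      · right
        rw [Sym2.eq_iff] at h ⊢
        simp only
        rcases h with ⟨h1, h2⟩ | ⟨h1, h2⟩
        · left; rw [h1, h2]; simp
        · right; rw [h1, h2]; simp
    · simp only [Equiv.symm_apply_apply]
      rw [Sym2.eq_iff] at he ⊢
      rcases he with ⟨h1, h2⟩ | ⟨h1, h2⟩
      · left; rw [h1, h2]; simp
      · right; rw [h1, h2]; simp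

theorem stepN_comap {α α' V V' : Type*} (H : SimpleGraph α) (G : SimpleGraph V)
    (e : α ≃ α') (ε : V ≃ V') :
    stepN (H.comap e.symm) (G.comap ε.symm) = (stepN H G).comap ε.symm := by
  ext u v
  rw [stepN_adj, newCopy_comap]
  constructor
  · rintro (h | ⟨h1, h2⟩)
    · exact Or.inl h
    · exact Or.inr ⟨fun h => h1 (ε.symm.injective h), h2⟩
  · rintro (h | ⟨h1, h2⟩)
    · exact Or.inl h
    · exact Or.inr ⟨fun h => h1 (by rw [h]), h2⟩

theorem comap_injective {V V' : Type*} (ε : V ≃ V') {G G' : SimpleGraph V}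
    (h : G.comap ε.symm = G'.comap ε.symm) : G = G' := by
  ext a b
  have : (G.comap ε.symm).Adj (ε a) (ε b) ↔ (G'.comap ε.symm).Adj (ε a) (ε b) := by rw [h]
  simpa using this

/-! ### The parameters -/

/-- the part of the size of a gadget that does not depend on the length of the path -/
noncomputable def cc (q : ℕ) : ℕ := ∑ h : QT q, (dd q h + 1)

theorem card_BT (q p : ℕ) : Fintype.card (BT q p) = 2 * ((q + 2) * p) * (p + 2 + cc q) := by
  simp only [Fintype.card_prod, Fintype.card_sum, Fintype.card_fin, Fintype.card_sigma,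
    Fintype.card_option, cc]
  ring

theorem card_T (q p x : ℕ) : Fintype.card (BT q p ⊕ OT q p x) =
    8 * ((q + 2) * p) * (p + 2 + cc q) + 1 + x := by
  rw [Fintype.card_sum (α := BT q p) (β := OT q p x),
    Fintype.card_sum (α := BT q p × Fin 3) (β := Option (Fin x)),
    Fintype.card_prod (BT q p) (Fin 3), card_BT q p]
  simp only [Fintype.card_fin, Fintype.card_option]
  ring

/-- **Main construction.** -/
theorem main_construction (K : ℕ) : ∃ t0 : ℕ, ∀ t ≥ t0, ∃ T : SimpleGraph (Fin t), T.IsTree ∧
    ∃ n0 : ℕ, ∀ n ≥ n0, ∃ G : ℕ → SimpleGraph (Fin n), (∀ i, G (i + 1) = stepN T (G i)) ∧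
      ∀ i < K * t, G (i + 1) ≠ G i := by
  classical
  set q := 33 * K with hq
  set c := cc q + 2 with hc
  -- size of the tree without padding
  let τ : ℕ → ℕ := fun p => 8 * ((q + 2) * p) * (p + 2 + cc q) + 1
  have hτlt : ∀ p, p < τ p := by
    intro p
    simp only [τ]
    nlinarith [Nat.zero_le p, Nat.zero_le q, Nat.zero_le (cc q), Nat.zero_le (p * p),
      Nat.zero_le (q * p), Nat.zero_le (q * p * p), Nat.zero_le (p * cc q),
      Nat.zero_le (q * p * cc q)]
  refine ⟨τ (c + 1), ?_⟩
  intro t ht
  let p := Nat.findGreatest (fun p => τ p ≤ t) t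
  have hpc : c + 1 ≤ p := by
    apply Nat.le_findGreatest
    · have := hτlt (c + 1)
      omega
    · exact ht
  have hp1 : τ p ≤ t := Nat.findGreatest_spec (P := fun p => τ p ≤ t) (m := c + 1)
    (by have := hτlt (c + 1); omega) ht
  have hp2 : t < τ (p + 1) := by
    by_contra hcon
    push Not at hcon
    have h1 : p + 1 ≤ t := by
      have := hτlt (p + 1)
      omega
    have h2 : p + 1 ≤ p := Nat.le_findGreatest (P := fun p => τ p ≤ t) h1 hcon
    omega
  have hppos : 0 < p := by omega
  have hMpos : 0 < MM q p := Nat.mul_pos (by omega) hppos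
  -- the numerical inequality
  have hnum : K * t ≤ MM q p * MM q p := by
    have h1 : t ≤ 8 * ((q + 2) * (p + 1)) * (p + 1 + 2 + cc q) + 1 := hp2.le
    have h2 : p + 1 ≤ 2 * p := by omega
    have h3 : p + 1 + 2 + cc q ≤ 2 * p := by omega
    have h4 : 8 * ((q + 2) * (p + 1)) * (p + 1 + 2 + cc q) ≤
        8 * ((q + 2) * (2 * p)) * (2 * p) := by
      apply Nat.mul_le_mul _ h3
      apply Nat.mul_le_mul_left
      apply Nat.mul_le_mul_left
      exact h2
    have h5 : t ≤ 33 * ((q + 2) * (p * p)) := by
      have h6 : 8 * ((q + 2) * (2 * p)) * (2 * p) = 32 * ((q + 2) * (p * p)) := by ring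
      have h7 : 1 ≤ (q + 2) * (p * p) := Nat.mul_pos (by omega) (Nat.mul_pos hppos hppos)
      omega
    calc K * t ≤ K * (33 * ((q + 2) * (p * p))) := Nat.mul_le_mul_left _ h5
      _ = (33 * K) * ((q + 2) * (p * p)) := by ring
      _ ≤ (q + 2) * ((q + 2) * (p * p)) := Nat.mul_le_mul_right _ (by omega)
      _ = MM q p * MM q p := by simp only [MM]; ring
  set x := t - τ p with hx
  have hcard : Fintype.card (BT q p ⊕ OT q p x) = t := by
    rw [card_T]
    have : τ p + x = t := by omega
    exact this
  let b0 : BT q p := (.inl ⟨0, hMpos⟩, yv 0)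
  let e : (BT q p ⊕ OT q p x) ≃ Fin t := Fintype.equivFinOfCardEq hcard
  refine ⟨(TT (x := x) b0).comap e.symm, ?_, ?_⟩
  · have hiso : (TT (x := x) b0).comap e.symm ≃g TT (x := x) b0 :=
      ⟨e.symm, fun {a b} => Iff.rfl⟩
    exact hiso.isTree_iff.2 (TT_isTree b0)
  · refine ⟨t, ?_⟩
    intro n hn
    have hBt : Fintype.card (BT q p) + Fintype.card (OT q p x) = t := by
      rw [← hcard, Fintype.card_sum (α := BT q p) (β := OT q p x)]
    let W := Fin (n - Fintype.card (BT q p))
    have hW : Fintype.card (OT q p x) ≤ Fintype.card W := by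
      simp only [W, Fintype.card_fin]
      omega
    obtain ⟨ι⟩ : Nonempty (OT q p x ↪ W) := Function.Embedding.nonempty_of_card_le hW
    have hcardn : Fintype.card (BT q p ⊕ W) = n := by
      rw [Fintype.card_sum]
      simp only [W, Fintype.card_fin]
      omega
    let ε : (BT q p ⊕ W) ≃ Fin n := Fintype.equivFinOfCardEq hcardn
    obtain ⟨G, hG1, hG2⟩ := core_main (x := x) ι b0
    refine ⟨fun i => (G i).comap ε.symm, ?_, ?_⟩
    · intro i
      simp only
      rw [stepN_comap, hG1]
    · intro i hi h
      exact hG2 i (by omega) (comap_injective ε h)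

end Pool.Agent.Lib.MP_88887c_co
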